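import Pool.Agent.Helper69.EK7.Grp
import Pool.Agent.Helper84.CK.PotW
set_option autoImplicit false
open Complex MeasureTheory Metric Set
open scoped Real ComplexConjugate

/-!
# Project CK: harmonic terms `β(η) Re (X-1)^n` with growth, angular integrals
-/

namespace Pool.Agent.Helper71.CK

open Pool.Sos71
open Pool.EK71 Pool.Agent.Helper52.EK Pool.Agent.Helper2.EK
open Pool.Agent.Helper69.EK3 hiding qX qY qL Rr c1_Rr c2_Rr Rr_le Dn Dn_ev Rr_conj_even Rr_conj_odd Rs dEta_conj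
open Pool.Agent.Helper69.EK5 (DQ Dd Dd_pos Dd_low DL e_D qX qY Rr c1_Rr Dn Dn_ev)
open Pool.Agent.Helper69.EK7 Pool.Agent.Helper84.CK

/-! ### integrals of `S^i C^j` over `(0, π/2)` -/

/-- `96 ∫ S^i C^j = a + b π` -/
def smv : ℕ → ℕ → ℤ × ℤ
  | 0, 4 => (48, 18)
  | 1, 3 => (36, 0)
  | 2, 2 => (0, 6)
  | 3, 1 => (12, 0)
  | 4, 0 => (-48, 18)
  | 0, 6 => (44, 15)
  | 1, 5 => (28, 0)
  | 2, 4 => (4, 3)
  | 3, 3 => (8, 0)
  | 4, 2 => (-4, 3)
  | 5, 1 => (4, 0)
  | 6, 0 => (-44, 15)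
  | _, _ => (0, 0)

/-- the table contains `(i, j)` -/
def smok : ℕ → ℕ → Bool
  | i, j => Nat.beq (i + j) 4 || Nat.beq (i + j) 6

theorem af_int {P : AP} {h : ℕ} (hP : ahom (2 * h) P = true) :
    ∫ t in (0:ℝ)..(π / 2), af (ader P) t = 2 * (asum P / 2 ^ h - aev 0 1 P) := by
  have h1 := intervalIntegral.integral_eq_sub_of_hasDerivAt
    (f := fun η => 2 * af P η) (f' := fun η => af (ader P) η) (a := 0) (b := π / 2)
    (fun η _ => ((af_hasDerivAt P η).const_mul 2).congr_deriv (by ring))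
    ((af_cont _).intervalIntegrable _ _)
  rw [h1, af_half_even hP]
  unfold af
  simp
  ring

theorem sm_int {i j h : ℕ} {P : AP} {s N : ℝ} (hN : N ≠ 0) (hP : ahom (2 * h) P = true)
    (hid : ∀ S C : ℝ, N * (S ^ i * C ^ j) = aev S C (ader P) + s * (S ^ 2 + C ^ 2) ^ h) :
    ∫ t in (0:ℝ)..(π / 2), Real.sin (t / 2) ^ i * Real.cos (t / 2) ^ j =
      (2 * (asum P / 2 ^ h - aev 0 1 P) + s * (π / 2)) / N := by
  have e : ∀ t : ℝ, Real.sin (t / 2) ^ i * Real.cos (t / 2) ^ j =
      N⁻¹ * (af (ader P) t + s) := by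
    intro t
    have h1 := hid (Real.sin (t / 2)) (Real.cos (t / 2))
    rw [Real.sin_sq_add_cos_sq, one_pow, mul_one] at h1
    unfold af
    rw [← h1]
    field_simp
  simp only [e]
  rw [intervalIntegral.integral_const_mul, intervalIntegral.integral_add
    ((af_cont _).intervalIntegrable _ _) (by simp), af_int hP, intervalIntegral.integral_const,
    smul_eq_mul, sub_zero]
  field_simp

theorem sm_val {i j : ℕ} (h : smok i j = true) :
    96 * ∫ t in (0:ℝ)..(π / 2), Real.sin (t / 2) ^ i * Real.cos (t / 2) ^ j =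
      (smv i j).1 + (smv i j).2 * π := by
  simp only [smok, Bool.or_eq_true, Nat.beq_eq] at h
  rcases h with h | h
  · have hi : i ≤ 4 := by omega
    interval_cases i
    · obtain rfl : j = 4 := by omega
      rw [sm_int (h := 2) (P := [(5, 1, 3), (3, 3, 1)]) (s := 3) (N := 8) (by norm_num) rfl
        (fun S C => by simp [ader, aev] <;> ring)]
      simp [smv, asum, aev]
      ring
    · obtain rfl : j = 3 := by omega
      rw [sm_int (h := 2) (P := [(-1, 0, 4)]) (s := 0) (N := 4) (by norm_num) rfl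
        (fun S C => by simp [ader, aev])]
      simp [smv, asum, aev]
      norm_num
    · obtain rfl : j = 2 := by omega
      rw [sm_int (h := 2) (P := [(-1, 1, 3), (1, 3, 1)]) (s := 1) (N := 8) (by norm_num) rfl
        (fun S C => by simp [ader, aev] <;> ring)]
      simp [smv, asum, aev]
      ring
    · obtain rfl : j = 1 := by omega
      rw [sm_int (h := 2) (P := [(-1, 0, 4), (-2, 2, 2)]) (s := 0) (N := 4) (by norm_num) rfl
        (fun S C => by simp [ader, aev] <;> ring)]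
      simp [smv, asum, aev]
      norm_num
    · obtain rfl : j = 0 := by omega
      rw [sm_int (h := 2) (P := [(-3, 1, 3), (-5, 3, 1)]) (s := 3) (N := 8) (by norm_num) rfl
        (fun S C => by simp [ader, aev] <;> ring)]
      simp [smv, asum, aev]
      ring
  · have hi : i ≤ 6 := by omega
    interval_cases i
    · obtain rfl : j = 6 := by omega
      rw [sm_int (h := 3) (P := [(33, 1, 5), (40, 3, 3), (15, 5, 1)]) (s := 15) (N := 48)
        (by norm_num) rfl (fun S C => by simp [ader, aev] <;> ring)]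
      simp [smv, asum, aev]
      ring
    · obtain rfl : j = 5 := by omega
      rw [sm_int (h := 3) (P := [(-1, 0, 6)]) (s := 0) (N := 6) (by norm_num) rfl
        (fun S C => by simp [ader, aev])]
      simp [smv, asum, aev]
      norm_num
    · obtain rfl : j = 4 := by omega
      rw [sm_int (h := 3) (P := [(-3, 1, 5), (8, 3, 3), (3, 5, 1)]) (s := 3) (N := 48)
        (by norm_num) rfl (fun S C => by simp [ader, aev] <;> ring)]
      simp [smv, asum, aev]
      ring
    · obtain rfl : j = 3 := by omega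
      rw [sm_int (h := 3) (P := [(-1, 0, 6), (-3, 2, 4)]) (s := 0) (N := 12)
        (by norm_num) rfl (fun S C => by simp [ader, aev] <;> ring)]
      simp [smv, asum, aev]
      norm_num
    · obtain rfl : j = 2 := by omega
      rw [sm_int (h := 3) (P := [(-3, 1, 5), (-8, 3, 3), (3, 5, 1)]) (s := 3) (N := 48)
        (by norm_num) rfl (fun S C => by simp [ader, aev] <;> ring)]
      simp [smv, asum, aev]
      ring
    · obtain rfl : j = 1 := by omega
      rw [sm_int (h := 3) (P := [(-1, 0, 6), (-3, 2, 4), (-3, 4, 2)]) (s := 0) (N := 6)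
        (by norm_num) rfl (fun S C => by simp [ader, aev] <;> ring)]
      simp [smv, asum, aev]
      norm_num
    · obtain rfl : j = 0 := by omega
      rw [sm_int (h := 3) (P := [(-15, 1, 5), (-40, 3, 3), (-33, 5, 1)]) (s := 15) (N := 48)
        (by norm_num) rfl (fun S C => by simp [ader, aev] <;> ring)]
      simp [smv, asum, aev]
      ring

/-- the integral of an angular polynomial -/
def amv : AP → ℤ × ℤ
  | [] => (0, 0)
  | (c, i, j) :: g => (Int.add (Int.mul c (smv i j).1) (amv g).1,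
      Int.add (Int.mul c (smv i j).2) (amv g).2)

def amok (g : AP) : Bool := g.all fun s => smok s.2.1 s.2.2

theorem am_val (g : AP) (h : amok g = true) :
    96 * ∫ t in (0:ℝ)..(π / 2), af g t = (amv g).1 + (amv g).2 * π := by
  induction g with
  | nil => simp [af, aev, amv]
  | cons s g ih =>
    obtain ⟨c, i, j⟩ := s
    simp only [amok, List.all_cons, Bool.and_eq_true] at h
    have h1 := sm_val h.1
    have h2 := ih h.2
    have e : ∀ t : ℝ, af ((c, i, j) :: g) t =
        (c : ℝ) * (Real.sin (t / 2) ^ i * Real.cos (t / 2) ^ j) + af g t := fun t => rfl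
    simp only [e]
    rw [intervalIntegral.integral_add (Continuous.intervalIntegrable (by fun_prop) _ _)
      ((af_cont g).intervalIntegrable _ _), intervalIntegral.integral_const_mul]
    have e1 : (amv ((c, i, j) :: g)).1 = c * (smv i j).1 + (amv g).1 := rfl
    have e2 : (amv ((c, i, j) :: g)).2 = c * (smv i j).2 + (amv g).2 := rfl
    rw [e1, e2]
    push_cast
    linear_combination (c : ℝ) * h1 + h2

/-! ### powers of `X - 1` -/

/-- real and imaginary part of `(X - 1)^n` -/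
def pwB : ℕ → BP × BP
  | 0 => ([[1]], [])
  | n + 1 => (ad2 (mu2 [[0], [1]] (pwB n).1) (sm2 (-1) (mu2 [[0, 1]] (pwB n).2)),
      ad2 (mu2 [[0, 1]] (pwB n).1) (mu2 [[0], [1]] (pwB n).2))

theorem pwB_ev (n : ℕ) (X : ℂ) : ev2 (X.re - 1) X.im (pwB n).1 = ((X - 1) ^ n).re ∧
    ev2 (X.re - 1) X.im (pwB n).2 = ((X - 1) ^ n).im := by
  have e1 : ev2 (X.re - 1) X.im [[0], [1]] = X.re - 1 := by
    simp only [ev2, ev1]
    push_cast
    ring
  have e2 : ev2 (X.re - 1) X.im [[0, 1]] = X.im := by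
    simp only [ev2, ev1]
    push_cast
    ring
  induction n with
  | zero => simp [pwB, ev2, ev1]
  | succ n ih =>
    constructor
    · rw [pwB, ev2_ad, ev2_sm, ev2_mu, ev2_mu, ih.1, ih.2, e1, e2, pow_succ', mul_re]
      simp only [sub_re, sub_im, one_re, one_im]
      push_cast
      ring
    · rw [pwB, ev2_ad, ev2_mu, ev2_mu, ih.1, ih.2, e1, e2, pow_succ', mul_im]
      simp only [sub_re, sub_im, one_re, one_im]
      ring

/-! ### growth -/

/-- `S^m |X-1|^n ≤ 10^m (1 + |X-1|²)` -/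
theorem gr_pow {m n : ℕ} (h : n ≤ m + 2) {S r : ℝ} (hS0 : 0 ≤ S) (hS1 : S ≤ 1) (hr : 0 ≤ r)
    (hSr : S * r ≤ 10) : S ^ m * r ^ n ≤ 10 ^ m * (1 + r ^ 2) := by
  have h10 : (1:ℝ) ≤ 10 ^ m := one_le_pow₀ (by norm_num)
  have hr2 : 0 ≤ 1 + r ^ 2 := by positivity
  rcases le_or_gt n 2 with hn | hn
  · have h1 : S ^ m ≤ 1 := pow_le_one₀ hS0 hS1
    have h2 : r ^ n ≤ 1 + r ^ 2 := by
      interval_cases n
      · simp
        positivity
      · nlinarith [sq_nonneg (r - 1)]
      · linarith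
    calc S ^ m * r ^ n ≤ 1 * (1 + r ^ 2) := mul_le_mul h1 h2 (pow_nonneg hr _) zero_le_one
      _ ≤ 10 ^ m * (1 + r ^ 2) := mul_le_mul_of_nonneg_right h10 hr2
  · obtain ⟨k, hk⟩ : ∃ k, n = k + 2 := ⟨n - 2, by omega⟩
    subst hk
    have hkm : k ≤ m := by omega
    have h1 : S ^ m ≤ S ^ k := pow_le_pow_of_le_one hS0 hS1 hkm
    have h2 : (S * r) ^ k ≤ 10 ^ k := pow_le_pow_left₀ (mul_nonneg hS0 hr) hSr k
    have h3 : (10:ℝ) ^ k ≤ 10 ^ m := pow_le_pow_right₀ (by norm_num) hkm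
    calc S ^ m * r ^ (k + 2) ≤ S ^ k * r ^ (k + 2) :=
          mul_le_mul_of_nonneg_right h1 (pow_nonneg hr _)
      _ = (S * r) ^ k * r ^ 2 := by ring
      _ ≤ 10 ^ m * r ^ 2 := mul_le_mul_of_nonneg_right (h2.trans h3) (sq_nonneg r)
      _ ≤ 10 ^ m * (1 + r ^ 2) := by nlinarith [show (0:ℝ) < 10 ^ m by positivity]

/-- all monomials have the exponent of `S` at least `n - 2` -/
def okS (n : ℕ) (g : AP) : Bool := g.all fun s => Nat.ble n (s.2.1 + 2)

/-- `|af g| |X-1|^n ≤ C (1 + |X-1|²)` -/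
theorem af_gr {n : ℕ} {g : AP} (h : okS n g = true) : ∃ C : ℝ, 0 ≤ C ∧ ∀ (η r : ℝ),
    η ∈ Icc (0:ℝ) (π / 2) → 0 ≤ r → Real.sin (η / 2) * r ≤ 10 →
    |af g η| * r ^ n ≤ C * (1 + r ^ 2) := by
  induction g with
  | nil =>
    refine ⟨0, le_rfl, fun η r _ _ _ => ?_⟩
    simp [af, aev]
  | cons s g ih =>
    obtain ⟨c, i, j⟩ := s
    simp only [okS, List.all_cons, Bool.and_eq_true, Nat.ble_eq] at h
    obtain ⟨C, hC, k⟩ := ih (by
      unfold okS
      simpa only [Nat.ble_eq] using h.2)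
    refine ⟨|(c : ℝ)| * 10 ^ i + C, by positivity, fun η r hη hr hSr => ?_⟩
    obtain ⟨s0, s1, _, c0, c1⟩ := s_half hη
    have h1 := gr_pow h.1 s0 s1 hr hSr
    have h2 := k η r hη hr hSr
    have e : |af ((c, i, j) :: g) η| ≤ |(c : ℝ)| * Real.sin (η / 2) ^ i + |af g η| := by
      unfold af
      rw [aev]
      refine (abs_add_le _ _).trans (add_le_add ?_ le_rfl)
      rw [abs_mul, abs_of_nonneg (mul_nonneg (pow_nonneg s0 i) (pow_nonneg c0 j))]
      refine mul_le_mul_of_nonneg_left ?_ (abs_nonneg _)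
      exact mul_le_of_le_one_right (pow_nonneg s0 i) (pow_le_one₀ c0 c1)
    calc |af ((c, i, j) :: g) η| * r ^ n ≤
          (|(c : ℝ)| * Real.sin (η / 2) ^ i + |af g η|) * r ^ n :=
          mul_le_mul_of_nonneg_right e (pow_nonneg hr _)
      _ = |(c : ℝ)| * (Real.sin (η / 2) ^ i * r ^ n) + |af g η| * r ^ n := by ring
      _ ≤ |(c : ℝ)| * (10 ^ i * (1 + r ^ 2)) + C * (1 + r ^ 2) :=
          add_le_add (mul_le_mul_of_nonneg_left h1 (abs_nonneg _)) h2
      _ = (|(c : ℝ)| * 10 ^ i + C) * (1 + r ^ 2) := by ring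

/-- the primitive of an angular polynomial, `≤ 4 S · sup` -/
theorem prim_gr {n : ℕ} {g : AP} (h : okS n g = true) (p : ℕ) (c : ℝ) : ∃ C : ℝ, 0 ≤ C ∧
    ∀ (η r : ℝ), η ∈ Icc (0:ℝ) (π / 2) → 0 ≤ r → Real.sin (η / 2) * r ≤ 10 →
    |∫ t in (0:ℝ)..η, c * (Real.sin (t / 2) ^ p * af g t)| * r ^ n ≤
      C * Real.sin (η / 2) ^ (p + 1) * (1 + r ^ 2) := by
  obtain ⟨C, hC, k⟩ := af_gr h
  refine ⟨|c| * C * 4, by positivity, fun η r hη hr hSr => ?_⟩
  have hp := Real.pi_pos
  obtain ⟨s0, s1, _, c0, _⟩ := s_half hη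
  have hrn := pow_nonneg hr n
  -- `η ≤ 4 S`
  have hη4 : η ≤ 4 * Real.sin (η / 2) := by
    have h1 := Real.mul_le_sin (x := η / 2) (by linarith [hη.1]) (by linarith [hη.2])
    have h2 : 2 / π * (η / 2) = η / π := by
      field_simp
    rw [h2] at h1
    have h3 : η / 4 ≤ η / π := by
      apply div_le_div_of_nonneg_left hη.1 hp
      exact Real.pi_le_four
    linarith
  have hb : ∀ t ∈ Set.uIoc 0 η, ‖c * (Real.sin (t / 2) ^ p * af g t) * r ^ n‖ ≤
      |c| * C * Real.sin (η / 2) ^ p * (1 + r ^ 2) := by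
    intro t ht
    rw [uIoc_of_le hη.1] at ht
    have ht' : t ∈ Icc (0:ℝ) (π / 2) := ⟨ht.1.le, ht.2.trans hη.2⟩
    obtain ⟨t0, t1, _, _, _⟩ := s_half ht'
    have hle : Real.sin (t / 2) ≤ Real.sin (η / 2) :=
      Real.sin_le_sin_of_le_of_le_pi_div_two (by linarith [ht.1]) (by linarith [hη.2])
        (by linarith [ht.2])
    have h2 := k t r ht' hr ((mul_le_mul_of_nonneg_right hle hr).trans hSr)
    rw [Real.norm_eq_abs, abs_mul, abs_mul, abs_mul, abs_of_nonneg (pow_nonneg t0 p),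
      abs_of_nonneg hrn]
    have h3 : Real.sin (t / 2) ^ p ≤ Real.sin (η / 2) ^ p := pow_le_pow_left₀ t0 hle p
    calc |c| * (Real.sin (t / 2) ^ p * |af g t|) * r ^ n =
          |c| * (Real.sin (t / 2) ^ p * (|af g t| * r ^ n)) := by ring
      _ ≤ |c| * (Real.sin (η / 2) ^ p * (C * (1 + r ^ 2))) := by
          refine mul_le_mul_of_nonneg_left ?_ (abs_nonneg c)
          exact mul_le_mul h3 h2 (by positivity) (pow_nonneg s0 p)
      _ = |c| * C * Real.sin (η / 2) ^ p * (1 + r ^ 2) := by ring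
  have h5 := intervalIntegral.norm_integral_le_of_norm_le_const hb
  rw [Real.norm_eq_abs, sub_zero, abs_of_nonneg hη.1, intervalIntegral.integral_mul_const,
    abs_mul, abs_of_nonneg hrn] at h5
  refine h5.trans ?_
  have h6 : |c| * C * Real.sin (η / 2) ^ p * (1 + r ^ 2) * η ≤
      |c| * C * Real.sin (η / 2) ^ p * (1 + r ^ 2) * (4 * Real.sin (η / 2)) :=
    mul_le_mul_of_nonneg_left hη4 (by positivity)
  refine h6.trans (le_of_eq ?_)
  ring

end Pool.Agent.Helper71.CK
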