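import Pool.Agent.Helper69.EK7.GrpE
import Pool.Agent.Helper84.CK.PotW
import Pool.Agent.Helper71.CK.Har
set_option autoImplicit false
open Complex MeasureTheory Metric Set
open scoped Real ComplexConjugate

/-!
# Project CK: groups of potentials `2 S^(j+1) g (M₁ + i M₂)/D^k (X'/X)^j` with growth
-/

namespace Pool.Agent.Helper71.CK

open Pool.Sos71
open Pool.EK71 Pool.Agent.Helper52.EK Pool.Agent.Helper2.EK
open Pool.Agent.Helper69.EK3 hiding qX qY qL Rr c1_Rr c2_Rr Rr_le Dn Dn_ev Rr_conj_even Rr_conj_odd Rs dEta_conj px px_o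
open Pool.Agent.Helper69.EK5 (DQ Dd Dd_pos Dd_low DL e_D qX qY Rr c1_Rr Dn Dn_ev Rr_conj_even Rr_conj_odd Rs Dd_conj)
open Pool.Agent.Helper69.EK6 (px)
open Pool.Agent.Helper69.EK7 Pool.Agent.Helper84.CK
open Pool.Agent.Helper71.EKC (c1_conj)

/-! ### seven variables only -/

def lowC (a : CE) : Bool := low a.r && low a.i

section
variable {a b : CE}

theorem lowC_iff : lowC a = true ↔ low a.r = true ∧ low a.i = true := by
  simp [lowC]

theorem lowC_add (h : lowC a = true) (h' : lowC b = true) : lowC (CE.add a b) = true := by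
  rw [lowC_iff] at *
  simp [CE.add, low, h, h']

theorem lowC_mul (h : lowC a = true) (h' : lowC b = true) : lowC (CE.mul a b) = true := by
  rw [lowC_iff] at *
  simp [CE.mul, low, h, h']

theorem lowC_cj (h : lowC a = true) : lowC (CE.cj a) = true := by
  rw [lowC_iff] at *
  simp [CE.cj, low, h]

theorem lowC_mI (h : lowC a = true) : lowC (CE.mI a) = true := by
  rw [lowC_iff] at *
  simp [CE.mI, low, h]

theorem lowC_rm {p : Ex} (hp : low p = true) (h : lowC a = true) : lowC (CE.rm p a) = true := by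
  rw [lowC_iff] at *
  simp [CE.rm, low, h, hp]

end

theorem lowC_sum {ι : Type} {f : ι → CE} (L : List ι) (h : ∀ t ∈ L, lowC (f t) = true) :
    lowC (CE.sumC f L) = true := by
  induction L with
  | nil => rfl
  | cons t L ih =>
    cases L with
    | nil => exact h t (by simp)
    | cons s L =>
      rw [CE.sumC]
      exact lowC_add (h t (by simp)) (ih fun r hr => h r (by simp [hr]))

theorem lowC_prod (L : List CE) (h : ∀ a ∈ L, lowC a = true) : lowC (CE.prodC L) = true := by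
  induction L with
  | nil => rfl
  | cons t L ih =>
    cases L with
    | nil => exact h t (by simp)
    | cons s L =>
      rw [CE.prodC]
      exact lowC_mul (h t (by simp)) (ih fun r hr => h r (by simp [hr]))

theorem lowC_P : lowC cP = true := rfl

theorem low_ap (g : AP) : low (apE g) = true := by
  induction g with
  | nil => rfl
  | cons t g ih =>
    obtain ⟨c, i, j⟩ := t
    have h0 : low (moE c i j) = true := rfl
    cases g with
    | nil => exact h0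
    | cons t' g =>
      have : low (apE ((c, i, j) :: t' :: g)) = (low (moE c i j) && low (apE (t' :: g))) := rfl
      rw [this, h0, ih]
      rfl

theorem low_EGr (a : DQ) (K : ℕ) {G : Grp} (hn : G.n = 0) (he : G.e = 0) :
    low (EGr a K G) = true := by
  have hA : lowC (CE.sumC (tA a K G.k G.w) G.l) = true := lowC_sum _ fun t _ => by
    unfold tA
    exact lowC_mI (lowC_rm (low_ap _) rfl)
  have hB : lowC (CE.sumC (tB a K G.k) G.l) = true := lowC_sum _ fun t _ => by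
    unfold tB
    exact lowC_rm (low_ap _) rfl
  have hS : lowC (CE.add (CE.sumC (tA a K G.k G.w) G.l)
      (CE.mul (CE.cj cP) (CE.sumC (tB a K G.k) G.l))) = true :=
    lowC_add hA (lowC_mul (lowC_cj lowC_P) hB)
  obtain ⟨j, n, e, k, L⟩ := G
  simp only at hn he
  subst hn
  subst he
  cases j with
  | zero => exact (lowC_iff.1 hS).1
  | succ j =>
    have hQ : lowC (cQ (j + 1) 0 0) = true := by
      unfold cQ
      refine lowC_prod _ fun a ha => ?_
      simp only [List.replicate_zero, List.append_nil] at ha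
      rw [List.eq_of_mem_replicate ha]
      rfl
    exact (lowC_iff.1 (lowC_mul hQ hS)).1

/-! ### the integrand -/

/-- growth with the additional factor `sin η` -/
def okW (k : ℕ) (t : AP × BP × BP) : Bool :=
  t.1.all fun s => dle (2 * k + 2 + s.2.1) t.2.1 && dle (2 * k + 2 + s.2.1) t.2.2

/-- the null Lagrangian of one potential -/
noncomputable def NGt (a : DQ) (j k : ℕ) (t : AP × BP × BP) (X Y : ℂ) (η : ℝ) : ℝ :=
  NG (aT j t.1) (fun η => af (ader (ash (j + 1) 0 t.1)) η) (HC a k t.2.1 t.2.2)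
    (HC a (k + 1) (qX a k t.2.1) (qX a k t.2.2)) (HC a (k + 1) (qY a k t.2.1) (qY a k t.2.2))
    X Y ((Y / X) ^ j) η

/-- its centre term -/
noncomputable def KGt (a : DQ) (j k : ℕ) (t : AP × BP × BP) (X Y : ℂ) : ℝ :=
  - (aT j t.1 (π / 2) * (HC a k t.2.1 t.2.2 X * (Y / X) ^ j).im)

theorem EGr_low (a : DQ) {K : ℕ} {G : Grp} (hn : G.n = 0) (he : G.e = 0) (hK : G.k + 1 ≤ K)
    (l η : ℝ) {X : ℂ} (hX : X ≠ 0) (Y : ℂ) : (EGr a K G).re (px l η X Y) =
      Dd a X.re X.im ^ K * (G.l.map fun t => NGt a G.j G.k t X Y η).sum := by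
  have h1 := EGr_re a G hK l η hX Y 0 0
  have h2 := re9_low (px9 l η X Y 0 0) _ (low_EGr a K hn he)
  rw [h1] at h2
  have h3 : (px9 l η X Y 0 0).t = px l η X Y := rfl
  rw [h3] at h2
  rw [← h2]
  congr 2
  apply List.map_congr_left
  intro t _
  have hw : G.w = G.j := by
    unfold Grp.w
    rw [hn, he]
    omega
  unfold Npc NGt NG
  rw [hn, he, hw]
  beta_reduce
  rw [af_adw]
  generalize HC a G.k t.2.1 t.2.2 X = H0
  generalize HC a (G.k + 1) (qX a G.k t.2.1) (qX a G.k t.2.2) X = H1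
  generalize HC a (G.k + 1) (qY a G.k t.2.1) (qY a G.k t.2.2) X = H2
  generalize (Y / X) ^ G.j = q
  generalize aT G.j t.1 η = α
  generalize (0 : ℂ) / X - (Y / X) ^ 2 = z
  generalize Real.sin (η / 2) ^ G.j * af (adw G.j t.1) η = β
  simp only [pow_zero, mul_one, map_one, Nat.cast_zero, zero_mul, map_zero, mul_zero, add_zero]
  rw [add_re]
  have e1 : (I * (β : ℂ) * H0 * q).re = - (β * (H0 * q).im) := by
    have : I * (β : ℂ) * H0 * q = (β : ℂ) * (I * (H0 * q)) := by ring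
    rw [this, re_ofReal_mul, I_mul_re]
    ring
  have e2 : ((α : ℂ) * ((H1 + I * H2) * conj Y) * q).re =
      α * ((H1 + I * H2) * (q * conj Y)).re := by
    have : (α : ℂ) * ((H1 + I * H2) * conj Y) * q = (α : ℂ) * ((H1 + I * H2) * (q * conj Y)) := by
      ring
    rw [this, re_ofReal_mul]
  rw [e1, e2]
  ring

/-! ### null against weights -/

theorem discP_q {X : ℂ → ℂ} {x₁ x₂ : ℝ} (hx : x₁ ≤ x₂) (hX : NiceH X x₁ x₂)
    (hP : DiscP X x₁ x₂) {ξ η : ℝ} (hξ : ξ ∈ Icc x₁ x₂) (hη : η ∈ Icc (0:ℝ) (π / 2)) :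
    Real.sin (η / 2) * ‖X (pt ξ η) - 1‖ ≤ 10 ∧
      Real.sin (η / 2) * ‖deriv X (pt ξ η) / X (pt ξ η)‖ ≤ 38 := by
  have q9 := DiscP.X_le X x₁ x₂ hx hX hP ξ hξ η hη
  have q38 := DiscP.q_le X x₁ x₂ hx hX hP ξ hξ η hη
  obtain ⟨s0, s1, s2, _, _⟩ := s_half hη
  refine ⟨?_, (mul_le_mul_of_nonneg_right s2 (norm_nonneg _)).trans q38⟩
  have h1 : ‖X (pt ξ η) - 1‖ ≤ ‖X (pt ξ η)‖ + 1 := by
    have := norm_sub_le (X (pt ξ η)) 1
    rwa [norm_one] at this
  calc Real.sin (η / 2) * ‖X (pt ξ η) - 1‖ ≤ Real.sin (η / 2) * (‖X (pt ξ η)‖ + 1) :=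
        mul_le_mul_of_nonneg_left h1 s0
    _ = Real.sin (η / 2) * ‖X (pt ξ η)‖ + Real.sin (η / 2) := by ring
    _ ≤ Real.sin η * ‖X (pt ξ η)‖ + 1 :=
        add_le_add (mul_le_mul_of_nonneg_right s2 (norm_nonneg _)) s1
    _ ≤ 10 := by linarith

theorem HC_grW (a : DQ) (k : ℕ) (M1 M2 : BP) (g : AP) (h : okW k (g, M1, M2) = true) :
    ∃ C : ℝ, 0 ≤ C ∧ ∀ (X : ℂ) (η : ℝ), η ∈ Icc (0:ℝ) (π / 2) →
      Real.sin (η / 2) * ‖X - 1‖ ≤ 10 →
      |af g η| * ‖HC a k M1 M2 X‖ ≤ C * (1 + ‖X - 1‖ ^ 2) := by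
  induction g with
  | nil =>
    refine ⟨0, le_rfl, fun X η hη _ => ?_⟩
    simp [af, aev]
  | cons t g ih =>
    obtain ⟨c, i, j⟩ := t
    simp only [okW, List.all_cons, Bool.and_eq_true] at h
    obtain ⟨⟨a1, a2⟩, a3⟩ := h
    obtain ⟨C₁, h1, k1⟩ := ih (by simpa only [okW] using a3)
    obtain ⟨C₂, h2, k2⟩ := HC_gr1 a k i M1 M2 a1 a2
    refine ⟨|(c : ℝ)| * C₂ + C₁, by positivity, fun X η hη hX => ?_⟩
    obtain ⟨s0, s1, _, c0, c1⟩ := s_half hη
    have k3 := k1 X η hη hX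
    have k4 := k2 X _ s0 s1 hX
    have hn := norm_nonneg (HC a k M1 M2 X)
    have e1 : |af ((c, i, j) :: g) η| ≤ |(c : ℝ)| * Real.sin (η / 2) ^ i + |af g η| := by
      unfold af
      rw [aev]
      refine (abs_add_le _ _).trans (add_le_add ?_ le_rfl)
      rw [abs_mul, abs_of_nonneg (mul_nonneg (pow_nonneg s0 i) (pow_nonneg c0 j))]
      refine mul_le_mul_of_nonneg_left ?_ (abs_nonneg _)
      exact mul_le_of_le_one_right (pow_nonneg s0 i) (pow_le_one₀ c0 c1)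
    calc |af ((c, i, j) :: g) η| * ‖HC a k M1 M2 X‖ ≤
          (|(c : ℝ)| * Real.sin (η / 2) ^ i + |af g η|) * ‖HC a k M1 M2 X‖ :=
          mul_le_mul_of_nonneg_right e1 hn
      _ = |(c : ℝ)| * (Real.sin (η / 2) ^ i * ‖HC a k M1 M2 X‖) +
          |af g η| * ‖HC a k M1 M2 X‖ := by ring
      _ ≤ |(c : ℝ)| * (C₂ * (1 + ‖X - 1‖ ^ 2)) + C₁ * (1 + ‖X - 1‖ ^ 2) :=
          add_le_add (mul_le_mul_of_nonneg_left k4 (abs_nonneg _)) k3
      _ = (|(c : ℝ)| * C₂ + C₁) * (1 + ‖X - 1‖ ^ 2) := by ring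

/-- **a group entry is null against weights** -/
theorem isNullW_Gt (a : DQ) (j k : ℕ) (t : AP × BP × BP) (h : okW k t = true) :
    IsNullW DiscP (fun X ξ η => NGt a j k t (X (pt ξ η)) (deriv X (pt ξ η)) η)
      (fun X ξ => KGt a j k t (X (pt ξ (π / 2))) (deriv X (pt ξ (π / 2)))) := by
  obtain ⟨g, M1, M2⟩ := t
  obtain ⟨C, hC0, hC⟩ := HC_grW a k M1 M2 g h
  refine isNullW_G (P := DiscP) (C := 2 * 38 ^ j * C) (c1_HC a k M1 M2) (anF_q j) (hd_aT j g)
    (af_cont _) ?_ ?_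
  · unfold aT
    rw [af_ashw]
    simp
  · intro X x₁ x₂ hx hX hP ξ hξ η hη
    obtain ⟨b1, b2⟩ := discP_q hx hX hP hξ hη
    obtain ⟨s0, s1, s2, _, _⟩ := s_half hη
    have h1 := hC (X (pt ξ η)) η hη b1
    obtain ⟨Z, hZ⟩ : ∃ Z, Z = X (pt ξ η) := ⟨_, rfl⟩
    obtain ⟨q, hq⟩ : ∃ q, q = deriv X (pt ξ η) / X (pt ξ η) := ⟨_, rfl⟩
    rw [← hq] at b2 ⊢
    rw [← hZ] at h1 ⊢
    unfold aT
    rw [af_ashw, norm_pow, abs_mul, abs_mul, abs_of_nonneg (pow_nonneg s0 _),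
      abs_of_pos (by norm_num : (0:ℝ) < 2)]
    have h2 : (Real.sin (η / 2) * ‖q‖) ^ j ≤ 38 ^ j :=
      pow_le_pow_left₀ (mul_nonneg s0 (norm_nonneg _)) b2 j
    calc 2 * (Real.sin (η / 2) ^ (j + 1) * |af g η|) * (‖HC a k M1 M2 Z‖ * ‖q‖ ^ j) =
          2 * (Real.sin (η / 2) * ‖q‖) ^ j * (|af g η| * ‖HC a k M1 M2 Z‖) *
            Real.sin (η / 2) := by rw [mul_pow, pow_succ]; ring
      _ ≤ 2 * 38 ^ j * (C * (1 + ‖Z - 1‖ ^ 2)) * Real.sin η := by
          refine mul_le_mul ?_ s2 s0 (by positivity)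
          exact mul_le_mul (mul_le_mul_of_nonneg_left h2 (by norm_num)) h1 (by positivity)
            (by positivity)
      _ = 2 * 38 ^ j * C * Real.sin η * (1 + ‖Z - 1‖ ^ 2) := by ring

/-- `c β(η) Re (X-1)^n`, `n ≤ 2`, is null against weights -/
theorem isNullW_har' {β : ℝ → ℝ} (hβ : Continuous β) (n : ℕ) (hn : n ≤ 2) :
    IsNullW DiscP (fun X ξ η => β η * ((X (pt ξ η) - 1) ^ n).re)
      (fun X ξ => (∫ t in (0:ℝ)..(π / 2), β t) * ((X (pt ξ (π / 2)) - 1) ^ n).re) := by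
  have hd : ∀ η : ℝ, HasDerivAt (fun η => -∫ t in (0:ℝ)..η, β t) (-β η) η := fun η =>
    (intervalIntegral.integral_hasDerivAt_right (hβ.intervalIntegrable _ _)
      hβ.stronglyMeasurable.stronglyMeasurableAtFilter hβ.continuousAt).neg
  have hF : C1c (fun X => I * (X - 1) ^ n) (fun X => I * ((n : ℂ) * (X - 1) ^ (n - 1)))
      (fun X => I * (I * ((n : ℂ) * (X - 1) ^ (n - 1)))) := by
    refine C1c_holo (fun X => ?_) (by fun_prop)
    have h1 : HasDerivAt (fun X : ℂ => X - 1) 1 X := (hasDerivAt_id X).sub_const 1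
    have h2 : HasDerivAt (fun X : ℂ => (X - 1) ^ n) ((n : ℂ) * (X - 1) ^ (n - 1)) X :=
      (h1.fun_pow n).congr_deriv (by ring)
    exact h2.const_mul I
  obtain ⟨M, hM⟩ := (isCompact_Icc (a := (0:ℝ)) (b := π / 2)).bddAbove_image hβ.abs.continuousOn
  have hM' : ∀ η ∈ Icc (0:ℝ) (π / 2), |β η| ≤ M := fun η hη => hM (mem_image_of_mem _ hη)
  have hM0 : 0 ≤ M := (abs_nonneg _).trans (hM' 0 ⟨le_rfl, by positivity⟩)
  have hb : ∀ η ∈ Icc (0:ℝ) (π / 2), |-∫ t in (0:ℝ)..η, β t| ≤ M * 2 * Real.sin η := by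
    intro η hη
    rw [abs_neg]
    have h1 : ∀ t ∈ Set.uIoc 0 η, ‖β t‖ ≤ M := by
      intro t ht
      rw [uIoc_of_le hη.1] at ht
      exact hM' t ⟨ht.1.le, ht.2.trans hη.2⟩
    have h2 := intervalIntegral.norm_integral_le_of_norm_le_const h1
    rw [Real.norm_eq_abs, sub_zero, abs_of_nonneg hη.1] at h2
    have hp := Real.pi_pos
    have h3 := Real.mul_le_sin hη.1 hη.2
    have h4 : η / 2 ≤ 2 / π * η := by
      have : 1 / 2 ≤ 2 / π := by
        rw [div_le_div_iff₀ (by norm_num) hp]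
        linarith [Real.pi_le_four]
      have := mul_le_mul_of_nonneg_right this hη.1
      linarith
    have h5 : M * η ≤ M * (2 * Real.sin η) :=
      mul_le_mul_of_nonneg_left (by linarith) hM0
    linarith
  have h := isNullW_G (P := DiscP) (C := M * 2) hF anF_one hd hβ.neg (by simp) (fun X x₁ x₂ hx hX hP
    ξ hξ η hη => by
      have h1 := hb η hη
      have h2 := norm_pow_le n hn (X (pt ξ η))
      have hs := sin_nn hη
      rw [norm_one, mul_one, norm_mul, norm_I, one_mul]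
      calc |-∫ t in (0:ℝ)..η, β t| * ‖(X (pt ξ η) - 1) ^ n‖ ≤
            (M * 2 * Real.sin η) * (1 * (1 + ‖X (pt ξ η) - 1‖ ^ 2)) :=
            mul_le_mul h1 h2 (norm_nonneg _) (mul_nonneg (by positivity) hs)
        _ = M * 2 * Real.sin η * (1 + ‖X (pt ξ η) - 1‖ ^ 2) := by ring)
  refine h.congr (fun X ξ η => ?_) (fun X ξ => ?_)
  · unfold NG
    have e : I * ((n : ℂ) * (X (pt ξ η) - 1) ^ (n - 1)) + I * (I * (I * ((n : ℂ) *
        (X (pt ξ η) - 1) ^ (n - 1)))) = 0 := by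
      linear_combination (I * (n : ℂ) * (X (pt ξ η) - 1) ^ (n - 1)) * I_sq
    rw [e]
    simp
  · simp

end Pool.Agent.Helper71.CK
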