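import Pool.Agent.Helper71.CK.DatT
import Pool.Agent.Helper71.CK.Gr
set_option autoImplicit false
open Complex MeasureTheory Metric Set
open scoped Real ComplexConjugate

/-!
# Project CK: data of a certificate, growth class

`DatG = { s : DatT, GR : List Grp }`: the lists `UU, VX, VE, F0, F1, HH` of `s.d.c` are empty and
`GR` is a list of groups (`n = e = 0`).
-/

namespace Pool.Agent.Helper71.CK

open Pool.Sos71
open Pool.EK71 Pool.Agent.Helper52.EK Pool.Agent.Helper2.EK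
open Pool.Agent.Helper69.EK3 hiding qX qY qL Rr c1_Rr c2_Rr Rr_le Dn Dn_ev Rr_conj_even Rr_conj_odd Rs dEta_conj px px_o csE_re EHM mulE eTT eCon Dat.NT Dat.KT px_Con px_TT
open Pool.Agent.Helper69.EK5 (DQ Dd Dd_pos Dd_low DL e_D qX qY Rr c1_Rr Dn Dn_ev Rr_conj_even Rr_conj_odd Rs Dd_conj)
open Pool.Agent.Helper69.EK6 (px px_o csE_re eCon px_TT Side)
open Pool.Agent.Helper69.EK6.Dat (SideOk_con)
open Pool.Agent.Helper69.EK3.Dat (SideOk disc_im)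
open Pool.Agent.Helper69.EK7 (Grp HC c1_HC aT hd_aT EGr)
open Pool.Agent.Helper20.EK7 (InL OutL)
open Pool.Agent.Helper84.CK
open Pool.Agent.Helper71.EKC (c1_conj)
open Pool.Agent.Helper71.EK3 (e_G2)

/-- `∑ asum(g) M₁` -/
def gs1 (G : Grp) : BP := sumB (fun t => sm2 (asum t.1) t.2.1) [] G.l
/-- `∑ asum(g) M₂` -/
def gs2 (G : Grp) : BP := sumB (fun t => sm2 (asum t.1) t.2.2) [] G.l

/-- conditions on a group -/
def okGr (K h : ℕ) (G : Grp) : Bool :=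
  Nat.beq G.n 0 && Nat.beq G.e 0 && Nat.ble (G.k + 1) K && Nat.ble (G.j + 1) (2 * h) &&
  G.l.all (fun t => ahom (2 * h - 1 - G.j) t.1) && G.l.all (fun t => okW G.k t) &&
  (Nat.beq G.j 0 || (par2 true (gs1 G) && par2 false (gs2 G)))

structure OkGr (K h : ℕ) (G : Grp) : Prop where
  n : G.n = 0
  e : G.e = 0
  k : G.k + 1 ≤ K
  j : G.j + 1 ≤ 2 * h
  hom : ∀ t ∈ G.l, ahom (2 * h - 1 - G.j) t.1 = true
  gr : ∀ t ∈ G.l, okW G.k t = true
  cen : G.j = 0 ∨ (par2 true (gs1 G) = true ∧ par2 false (gs2 G) = true)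

theorem okGr_iff {K h : ℕ} {G : Grp} (w : okGr K h G = true) : OkGr K h G := by
  simp only [okGr, Bool.and_eq_true, Bool.or_eq_true, Nat.beq_eq, Nat.ble_eq,
    List.all_eq_true] at w
  obtain ⟨⟨⟨⟨⟨⟨h1, h2⟩, h3⟩, h4⟩, h5⟩, h6⟩, h7⟩ := w
  exact ⟨h1, h2, h3, h4, h5, h6, h7⟩

/-! ### the centre terms of a group -/

theorem gs_ev (L : List (AP × BP × BP)) (f : AP × BP × BP → BP) (x y : ℝ) :
    ev2 x y (sumB (fun t => sm2 (asum t.1) (f t)) [] L) =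
      (L.map fun t => (asum t.1 : ℝ) * ev2 x y (f t)).sum := by
  rw [sumB_ev]
  simp only [ev2_sm]
  have : ev2 x y [] = 0 := rfl
  rw [this, add_zero]

section cen
variable {K h : ℕ} {G : Grp} (w : OkGr K h G) (a : DQ)
include w

theorem aT_half {t : AP × BP × BP} (ht : t ∈ G.l) :
    aT G.j t.1 (π / 2) = 2 * (asum t.1 : ℝ) / 2 ^ h := by
  have e0 : 2 * h - 1 - G.j + (G.j + 1) + 0 = 2 * h := by
    have := w.j
    omega
  have g1 : ahom (2 * h) (ash (G.j + 1) 0 t.1) = true := by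
    have := ahom_ash (G.j + 1) 0 (w.hom t ht)
    rwa [e0] at this
  unfold aT
  rw [af_half_even g1, asum_ash]
  ring

/-- the sum of the centre terms of a group -/
theorem KG_sum (X Y : ℂ) : (G.l.map fun t => KGt a G.j G.k t X Y).sum =
    - (2 / 2 ^ h * (((Rr a G.k (gs1 G) X : ℂ) + I * (Rr a G.k (gs2 G) X : ℂ)) *
      (Y / X) ^ G.j).im) := by
  have e : ∀ t ∈ G.l, KGt a G.j G.k t X Y = - (2 / 2 ^ h *
      ((((asum t.1 : ℝ) * ev2 (X.re - 1) X.im t.2.1 / Dd a X.re X.im ^ G.k : ℝ) +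
        I * (((asum t.1 : ℝ) * ev2 (X.re - 1) X.im t.2.2 / Dd a X.re X.im ^ G.k : ℝ) : ℂ)) *
          (Y / X) ^ G.j).im) := by
    intro t ht
    unfold KGt
    rw [aT_half w ht]
    unfold HC Rr
    have e1 : ((((asum t.1 : ℝ) * ev2 (X.re - 1) X.im t.2.1 / Dd a X.re X.im ^ G.k : ℝ) : ℂ) +
        I * (((asum t.1 : ℝ) * ev2 (X.re - 1) X.im t.2.2 / Dd a X.re X.im ^ G.k : ℝ) : ℂ)) *
          (Y / X) ^ G.j = ((asum t.1 : ℝ) : ℂ) *
        ((((ev2 (X.re - 1) X.im t.2.1 / Dd a X.re X.im ^ G.k : ℝ) : ℂ) +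
        I * ((ev2 (X.re - 1) X.im t.2.2 / Dd a X.re X.im ^ G.k : ℝ) : ℂ)) *
          (Y / X) ^ G.j) := by
      push_cast
      ring
    rw [e1, im_ofReal_mul]
    ring
  rw [map_sum_congr _ e]
  have e2 : ∀ L : List (AP × BP × BP), (L.map fun t => - (2 / 2 ^ h *
      ((((asum t.1 : ℝ) * ev2 (X.re - 1) X.im t.2.1 / Dd a X.re X.im ^ G.k : ℝ) +
        I * (((asum t.1 : ℝ) * ev2 (X.re - 1) X.im t.2.2 / Dd a X.re X.im ^ G.k : ℝ) : ℂ)) *
          (Y / X) ^ G.j).im)).sum = - (2 / 2 ^ h *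
      (((((L.map fun t => (asum t.1 : ℝ) * ev2 (X.re - 1) X.im t.2.1).sum /
        Dd a X.re X.im ^ G.k : ℝ) : ℂ) + I * (((L.map fun t => (asum t.1 : ℝ) *
          ev2 (X.re - 1) X.im t.2.2).sum / Dd a X.re X.im ^ G.k : ℝ) : ℂ)) *
          (Y / X) ^ G.j).im) := by
    intro L
    induction L with
    | nil => simp
    | cons t L ih =>
      rw [List.map_cons, List.sum_cons, ih, List.map_cons, List.sum_cons, List.map_cons,
        List.sum_cons]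
      push_cast
      have e3 : ∀ (A1 B1 A2 B2 D q : ℂ), ((A1 + A2) / D + I * ((B1 + B2) / D)) * q =
          (A1 / D + I * (B1 / D)) * q + (A2 / D + I * (B2 / D)) * q := by
        intros
        ring
      rw [e3, add_im]
      ring
  rw [e2, ← gs_ev G.l (fun t => t.2.1), ← gs_ev G.l (fun t => t.2.2)]
  rfl

theorem KG_conj (X Y : ℂ) : (G.l.map fun t => KGt a G.j G.k t X Y).sum +
    (G.l.map fun t => KGt a G.j G.k t (conj X) (conj Y)).sum =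
      - (if G.j = 0 then 2 / 2 ^ h * Rs a G.k (gs2 G) X else 0) := by
  rw [KG_sum w, KG_sum w]
  by_cases hj : G.j = 0
  · rw [if_pos hj, hj]
    unfold Rs
    simp only [pow_zero, mul_one, add_im, ofReal_im, mul_im, I_re, I_im, ofReal_re]
    ring
  · rw [if_neg hj]
    rcases w.cen with h1 | ⟨h1, h2⟩
    · exact absurd h1 hj
    · rw [Rr_conj_even h1, Rr_conj_odd h2]
      have e : ((Rr a G.k (gs1 G) X : ℂ) + I * ((- Rr a G.k (gs2 G) X : ℝ) : ℂ)) *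
          (conj Y / conj X) ^ G.j = conj (((Rr a G.k (gs1 G) X : ℂ) +
            I * (Rr a G.k (gs2 G) X : ℂ)) * (Y / X) ^ G.j) := by
        simp
      rw [e, conj_im]
      ring

end cen

structure DatG where
  s : DatT
  GR : List Grp

namespace DatG
variable (g : DatG)

/-- the target of one side -/
def tSide (f : Sd) (L : List (ℕ × ℕ × ℤ)) : Ex :=
  sumE (EGr g.s.d.c.a g.s.d.c.K) (g.s.tSide f L) g.GR

/-- the target inside -/
def tIn : Ex := g.tSide g.s.d.c.fi g.s.d.MI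
/-- the target outside -/
def tOut : Ex := g.tSide g.s.d.c.fo g.s.d.MO

/-- conditions on the data -/
def wf : Bool :=
  g.s.d.wf && g.s.d.c.UU.isEmpty && g.s.d.c.VX.isEmpty && g.s.d.c.VE.isEmpty &&
  g.s.d.c.F0.isEmpty && g.s.d.c.F1.isEmpty && g.s.d.c.HH.isEmpty &&
  g.GR.all (okGr g.s.d.c.K g.s.d.c.h)

structure Wf : Prop where
  d : g.s.d.Wf
  uu : g.s.d.c.UU = []
  vx : g.s.d.c.VX = []
  ve : g.s.d.c.VE = []
  f0 : g.s.d.c.F0 = []
  f1 : g.s.d.c.F1 = []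
  hh : g.s.d.c.HH = []
  gr : ∀ G ∈ g.GR, OkGr g.s.d.c.K g.s.d.c.h G

theorem wf_iff (h : g.wf = true) : g.Wf := by
  simp only [wf, Bool.and_eq_true, List.isEmpty_iff, List.all_eq_true] at h
  obtain ⟨⟨⟨⟨⟨⟨⟨h1, h2⟩, h3⟩, h4⟩, h5⟩, h6⟩, h7⟩, h8⟩ := h
  exact ⟨DatM.wf_iff _ h1, h2, h3, h4, h5, h6, h7, fun G hG => okGr_iff (h8 G hG)⟩

/-- the groups -/
noncomputable def NGR (X Y : ℂ) (η : ℝ) : ℝ :=
  (g.GR.map fun G => (G.l.map fun t => NGt g.s.d.c.a G.j G.k t X Y η).sum).sum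

noncomputable def KGR (X Y : ℂ) : ℝ :=
  (g.GR.map fun G => (G.l.map fun t => KGt g.s.d.c.a G.j G.k t X Y).sum).sum

/-- the total null Lagrangian -/
noncomputable def NT (X Y : ℂ) (η : ℝ) : ℝ := g.s.d.NT X Y η + g.NGR X Y η

/-- its centre function -/
noncomputable def KT (X Y : ℂ) : ℝ := g.s.d.KT X Y + g.KGR X Y

variable {g}

theorem tSide_re (w : g.Wf) {f : Sd} {L : List (ℕ × ℕ × ℤ)} (hL : ∀ t ∈ L, t.2.1 ≤ 2)
    {X Y : ℂ} (hX : X ≠ 0) (l η : ℝ) (h : (eCon f).re (px l η X Y) = 0) :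
    (g.tSide f L).re (px l η X Y) = Dd g.s.d.c.a X.re X.im ^ g.s.d.c.K *
      (g.NT X Y η + (g.s.d.c.lam * ‖X - 1‖ ^ 2 + g.s.d.c.a2 * ((X.re - 1) ^ 2 - X.im ^ 2)) +
        (g.s.d.kb * (1 - X.re) + g.s.d.del) +
        (MS L l (mX X Y (Real.sin η) (Real.cos η)) * e0 (Real.sin η) (Real.cos η) *
          (g.s.td * (X ^ 2 - 1) - g.s.tn)).re -
        (Pool.Agent.Helper69.EK6.eTT g.s.d.c.M f).re (px l η X Y)) := by
  unfold tSide
  rw [sumE_re, DatT.tSide_re w.d hL hX l η h,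
    map_sum_congr g.GR fun G hG => EGr_low g.s.d.c.a (w.gr G hG).n (w.gr G hG).e (w.gr G hG).k
      l η hX Y, map_sum_mul]
  unfold NT NGR
  ring

/-- conditions on the data -/
structure Ok (g : DatG) (ka kb p0 p1 p2 la lb q0 q1 q2 : ℝ) (Ln Ld Ln' Ld' : ℤ) : Prop where
  wf : g.wf = true
  M0 : 0 < g.s.d.c.M
  td0 : 0 < g.s.td
  lam0 : 0 ≤ g.s.d.c.lam
  fi : SideOk g.s.d.c.M g.s.d.c.fi 1 ka kb p0 p1 p2
  fo : SideOk g.s.d.c.M g.s.d.c.fo (-1) la lb q0 q1 q2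
  Ld0 : 0 < Ld
  Ld0' : 0 < Ld'
  inL : InL p0 p1 p2
  outL : OutL la q0 q1 q2
  lIn : LIn p0 p1 p2 (Ln / Ld)
  lOut : LOut q0 q1 q2 (Ln' / Ld')

variable {ka kb p0 p1 p2 la lb q0 q1 q2 : ℝ} {Ln Ld Ln' Ld' : ℤ}

/-- **the pointwise inequality**, growth class -/
theorem Ok.point (o : g.Ok ka kb p0 p1 p2 la lb q0 q1 q2 Ln Ld Ln' Ld')
    (hIn : Side g.s.d.c.K Ln Ld g.tIn) (hOut : Side g.s.d.c.K Ln' Ld' g.tOut) :
    ∃ B : ℝ, 0 ≤ B ∧
    ∀ G : ℂ → ℂ, Fld G ka kb p0 p1 p2 la lb q0 q1 q2 →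
    ∀ X Y : ℂ, X ≠ 0 → ∀ η ∈ Icc (0:ℝ) (π / 2), ∃ l1 l2 : ℝ, 0 ≤ l1 ∧ l1 ≤ B ∧ 0 ≤ l2 ∧ l2 ≤ B ∧
    g.s.d.c.M * ‖G (mX X Y (Real.sin η) (Real.cos η)) - e0 (Real.sin η) (Real.cos η)‖ ^ 2 +
      (l1 * (16 - ‖dA 1 X Y (Real.sin η) (Real.cos η)‖ ^ 2) +
        l2 * (16 - ‖dA (-1) X Y (Real.sin η) (Real.cos η)‖ ^ 2)) ≤
      g.NT X Y η + (g.s.d.c.lam * ‖X - 1‖ ^ 2 + g.s.d.c.a2 * ((X.re - 1) ^ 2 - X.im ^ 2)) +
        (g.s.d.kb * (1 - X.re) + g.s.d.del) +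
        g.s.d.c.M * (g.s.Mu p0 p1 p2 q0 q1 q2 (mX X Y (Real.sin η) (Real.cos η)) *
          e0 (Real.sin η) (Real.cos η) * (X ^ 2 - (1 + g.s.tn / g.s.td))).re := by
  obtain ⟨B1, hB1, k1⟩ := Pool.Agent.Helper69.EK6.Dat.Side.apply hIn
  obtain ⟨B2, hB2, k2⟩ := Pool.Agent.Helper69.EK6.Dat.Side.apply hOut
  have w := wf_iff g o.wf
  refine ⟨max B1 B2, le_max_of_le_left hB1, fun G hG X Y hX η hη => ?_⟩
  have hM : (0:ℝ) < g.s.d.c.M := by exact_mod_cast o.M0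
  have hMc : (g.s.d.c.M : ℂ) ≠ 0 := by exact_mod_cast hM.ne'
  have htd : (g.s.td : ℂ) ≠ 0 := by exact_mod_cast o.td0.ne'
  have hD : 0 < Dd g.s.d.c.a X.re X.im ^ g.s.d.c.K := pow_pos (Dd_pos _ _ _) _
  have he : ‖e0 (Real.sin η) (Real.cos η)‖ = 1 := norm_e0 η
  -- the multiplier
  have hmul : ∀ z : ℂ, (g.s.d.c.M : ℝ) * (g.s.td * z / (g.s.d.c.M : ℂ) *
      e0 (Real.sin η) (Real.cos η) * (X ^ 2 - (1 + g.s.tn / g.s.td))).re =
      (z * e0 (Real.sin η) (Real.cos η) * (g.s.td * (X ^ 2 - 1) - g.s.tn)).re := by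
    intro z
    rw [← re_ofReal_mul]
    congr 1
    push_cast
    field_simp
    ring
  obtain ⟨m, hm⟩ : ∃ m : ℂ, m = mX X Y (Real.sin η) (Real.cos η) := ⟨_, rfl⟩
  by_cases h1 : ‖m‖ ≤ 1
  · obtain ⟨d1, d2, d3⟩ := o.lIn.l_bd o.inL h1
    obtain ⟨l, hl⟩ : ∃ l : ℝ, l = (1 - ‖m‖ ^ 2) / rF p0 p1 p2 m := ⟨_, rfl⟩
    have hL : (0:ℝ) < Ld := by exact_mod_cast o.Ld0
    rw [← hl] at d2 d3
    have hc : (eCon g.s.d.c.fi).re (px l η X Y) = 0 := by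
      refine SideOk_con o.fi ?_ (by norm_num)
      rw [← hm, hl, div_mul_cancel₀ _ d1.ne']
      push_cast
      ring
    obtain ⟨l1, l2, a1, a2, a3, a4, h5⟩ := k1 X Y l η hη d2 (by
      rw [le_div_iff₀ hL] at d3
      linarith)
    have h6 : g.tIn.re (px l η X Y) = _ := tSide_re w w.d.mi hX l η hc
    rw [h6] at h5
    have h7 := le_of_mul_le_mul_left h5 hD
    rw [px_TT l η X Y o.fi.ma o.fi.mb o.fi.maa o.fi.mab o.fi.mbb (by rw [o.fi.sg]; norm_num),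
      ← hm, o.fi.sg] at h7
    refine ⟨l1, l2, a1, a2.trans (le_max_left _ _), a3, a4.trans (le_max_left _ _), ?_⟩
    have h8 := mul_le_mul_of_nonneg_left (hG.gin m h1 _ he) hM.le
    unfold Fq at h8
    rw [← hl] at h8
    rw [← hm]
    unfold DatT.Mu Mq
    rw [if_pos h1, ← hl, MS_scl, hmul]
    push_cast at h7
    rw [one_mul] at h7
    linarith
  · have h1' : 1 < ‖m‖ := not_le.1 h1
    obtain ⟨d1, d2, d3⟩ := o.lOut.l_bd o.outL h1'.le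
    obtain ⟨l, hl⟩ : ∃ l : ℝ, l = (‖m‖ ^ 2 - 1) / rF q0 q1 q2 m := ⟨_, rfl⟩
    have hL : (0:ℝ) < Ld' := by exact_mod_cast o.Ld0'
    rw [← hl] at d2 d3
    have hc : (eCon g.s.d.c.fo).re (px l η X Y) = 0 := by
      refine SideOk_con o.fo ?_ (by norm_num)
      rw [← hm, hl, div_mul_cancel₀ _ d1.ne']
      push_cast
      ring
    obtain ⟨l1, l2, a1, a2, a3, a4, h5⟩ := k2 X Y l η hη d2 (by
      rw [le_div_iff₀ hL] at d3
      linarith)
    have h6 : g.tOut.re (px l η X Y) = _ := tSide_re w w.d.mo hX l η hc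
    rw [h6] at h5
    have h7 := le_of_mul_le_mul_left h5 hD
    rw [px_TT l η X Y o.fo.ma o.fo.mb o.fo.maa o.fo.mab o.fo.mbb (by rw [o.fo.sg]; norm_num),
      ← hm, o.fo.sg] at h7
    have e : (1 - ‖m‖ ^ 2) / rF q0 q1 q2 m = ((-1 : ℤ) : ℝ) * l := by
      rw [hl]
      push_cast
      ring
    refine ⟨l1, l2, a1, a2.trans (le_max_right _ _), a3, a4.trans (le_max_right _ _), ?_⟩
    have h8 := mul_le_mul_of_nonneg_left (hG.gout m h1' _ he) hM.le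
    unfold Fq at h8
    rw [e] at h8
    rw [← hm]
    unfold DatT.Mu Mq
    rw [if_neg h1, ← hl, MS_scl, hmul]
    linarith

/-! ### null against weights -/

/-- **the total null Lagrangian is null against weights** -/
theorem isNullW_NT (w : g.Wf) :
    IsNullW DiscP (fun X ξ η => g.NT (X (pt ξ η)) (deriv X (pt ξ η)) η)
      (fun X ξ => g.KT (X (pt ξ (π / 2))) (deriv X (pt ξ (π / 2)))) := by
  have n1 := IsNullW.list g.s.d.c.HM (fun t _ =>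
    (isNullW_har' (trg_cont t.1 t.2.1) 2 le_rfl).const_mul (t.2.2 : ℝ))
  have n2 := IsNullW.list g.s.d.HM1 (fun t _ =>
    (isNullW_har' (trg_cont t.1 t.2.1) 1 (by norm_num)).const_mul (t.2.2 : ℝ))
  have n3 := IsNullW.list g.GR (fun G hG => IsNullW.list G.l fun t ht =>
    isNullW_Gt g.s.d.c.a G.j G.k t ((w.gr G hG).gr t ht))
  refine ((n1.add n2).add n3).congr (fun X ξ η => ?_) (fun X ξ => ?_)
  · unfold NT NGR DatM.NT Pool.Agent.Helper69.EK6.Dat.NT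
    rw [w.uu, w.vx, w.ve, w.f0, w.f1, w.hh]
    simp only [List.map_nil, List.sum_nil, zero_add]
    rfl
  · unfold KT KGR DatM.KT Pool.Agent.Helper69.EK6.Dat.KT
    rw [w.uu, w.vx, w.ve, w.f0, w.f1, w.hh]
    simp only [List.map_nil, List.sum_nil, zero_add]
    rfl

/-! ### centre -/

section cen
variable (g)

def cG (G : Grp) : BP := match G.j with
  | 0 => sm2 2712 (mu2 (ad2 (gs2 G) (fl2 (gs2 G))) (Dn g.s.d.c.a (g.s.d.c.K - G.k)))
  | _ => []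

/-- the centre polynomial: `12 · 113 · 2^h · D^K · E_c` with `355/113` for `π` -/
def cen : BP := sumB g.cG g.s.d.cen g.GR

/-- the centre function with `p` for `π` and `k` for `c₁` -/
noncomputable def Ecp (k p : ℝ) (X : ℂ) : ℝ :=
  g.s.d.Ecp k p X + (g.GR.map fun G => if G.j = 0 then
    2 / 2 ^ g.s.d.c.h * Rs g.s.d.c.a G.k (gs2 G) X else 0).sum

end cen

theorem cen_ev (w : g.Wf) (X : ℂ) : ev2 (X.re - 1) X.im g.cen =
    1356 * 2 ^ g.s.d.c.h * Dd g.s.d.c.a X.re X.im ^ g.s.d.c.K *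
      g.Ecp g.s.d.c.c1 (355 / 113) X := by
  have hD := (Dd_pos g.s.d.c.a X.re X.im).ne'
  have eG : ∀ G ∈ g.GR, ev2 (X.re - 1) X.im (g.cG G) =
      1356 * 2 ^ g.s.d.c.h * Dd g.s.d.c.a X.re X.im ^ g.s.d.c.K *
        (if G.j = 0 then 2 / 2 ^ g.s.d.c.h * Rs g.s.d.c.a G.k (gs2 G) X else 0) := by
    intro G hG
    obtain ⟨m, hm⟩ := Nat.exists_eq_add_of_le (le_trans (Nat.le_add_right _ 1) (w.gr G hG).k)
    have e2 : g.s.d.c.K - G.k = m := by omega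
    rcases Nat.eq_zero_or_pos G.j with hj | hj
    · have e1 : g.cG G = sm2 2712 (mu2 (ad2 (gs2 G) (fl2 (gs2 G)))
          (Dn g.s.d.c.a (g.s.d.c.K - G.k))) := by
        unfold cG
        rw [hj]
        rfl
      rw [e1, if_pos hj, ev2_sm, ev2_mu, ev2_ad, fl2_ev, Dn_ev, e2]
      unfold Rs Rr
      rw [Dd_conj, conj_re, conj_im]
      have p1 : Dd g.s.d.c.a X.re X.im ^ g.s.d.c.K = Dd g.s.d.c.a X.re X.im ^ G.k *
          Dd g.s.d.c.a X.re X.im ^ m := by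
        rw [hm, pow_add]
      rw [p1]
      field_simp
      push_cast
      ring
    · obtain ⟨j, hj'⟩ : ∃ j, G.j = j + 1 := ⟨G.j - 1, by omega⟩
      have e1 : g.cG G = [] := by
        unfold cG
        rw [hj']
        rfl
      rw [e1, if_neg (by omega)]
      simp [ev2]
  rw [cen, sumB_ev, map_sum_congr _ eG, map_sum_mul, DatM.cen_ev w.d]
  unfold Ecp
  ring

theorem KT_conj (w : g.Wf) (X Y : ℂ) (k : ℝ) :
    (g.KT X Y + (g.s.d.c.a2 * (π / 2) * ((X.re - 1) ^ 2 - X.im ^ 2) +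
      (k - g.s.d.kb) * (π / 2) * (X.re - 1))) +
    (g.KT (conj X) (conj Y) + (g.s.d.c.a2 * (π / 2) * (((conj X).re - 1) ^ 2 -
      (conj X).im ^ 2) + (k - g.s.d.kb) * (π / 2) * ((conj X).re - 1))) =
      - g.Ecp k π X := by
  have h1 := DatM.KT_conj w.d X Y k
  have h2 := map_sum_congr g.GR fun G hG => KG_conj (w.gr G hG) g.s.d.c.a X Y
  rw [← map_sum_add] at h2
  have h4 : (g.GR.map fun G => - (if G.j = 0 then
      2 / 2 ^ g.s.d.c.h * Rs g.s.d.c.a G.k (gs2 G) X else 0)).sum =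
      - (g.GR.map fun G => if G.j = 0 then
        2 / 2 ^ g.s.d.c.h * Rs g.s.d.c.a G.k (gs2 G) X else 0).sum := by
    have := map_sum_mul g.GR (fun G => if G.j = 0 then
      2 / 2 ^ g.s.d.c.h * Rs g.s.d.c.a G.k (gs2 G) X else 0) (-1)
    simp only [neg_mul, one_mul] at this
    exact this
  rw [h4] at h2
  unfold KT KGR Ecp
  linear_combination h1 + h2

theorem Ecp_c1 (k p : ℝ) : ∃ Ex Ey : ℂ → ℝ, C1f (g.Ecp k p) Ex Ey := by
  obtain ⟨A1, A2, hA⟩ := DatM.Ecp_c1 (d := g.s.d) k p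
  obtain ⟨B1, B2, hB⟩ := c1_list g.GR (fun G X => if G.j = 0 then
    2 / 2 ^ g.s.d.c.h * Rs g.s.d.c.a G.k (gs2 G) X else 0) (fun G => by
      by_cases hj : G.j = 0
      · exact ⟨_, _, c1_congr (c1_mul (c1_const (2 / 2 ^ g.s.d.c.h))
          (c1_add (c1_Rr g.s.d.c.a G.k (gs2 G)) (c1_conj (c1_Rr g.s.d.c.a G.k (gs2 G)))))
          (fun X => by rw [if_pos hj]; unfold Rs; ring) (fun _ => rfl) (fun _ => rfl)⟩
      · exact ⟨_, _, c1_congr (c1_const 0) (fun X => by rw [if_neg hj]) (fun _ => rfl)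
          (fun _ => rfl)⟩)
  refine ⟨_, _, c1_congr (c1_add hA hB) (fun X => ?_) (fun _ => rfl) (fun _ => rfl)⟩
  unfold Ecp
  ring

/-- `355/113` for `π` -/
theorem Ecp_pi {p ε : ℝ} (hp : 0 ≤ p - π)
    (hε : ε * π = (|(g.s.d.c.c1 : ℝ) - g.s.d.kb| + 2 * |(g.s.d.c.a2 : ℝ)|) * (p - π)) {X : ℂ}
    (hX : ‖X‖ ≤ 1) : 0 ≤ g.Ecp (g.s.d.c.c1 + ε) π X - g.Ecp g.s.d.c.c1 p X := by
  have h1 := DatM.Ecp_pi (d := g.s.d) hp hε hX
  unfold Ecp
  linarith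

end DatG

end Pool.Agent.Helper71.CK
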