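import Pool.Agent.Helper69.EK6.Fin
import Pool.Agent.Helper20.CK.RingM
import Pool.Agent.Helper20.EK7.OneJet
set_option autoImplicit false
open Complex MeasureTheory Metric Set
open scoped Real ComplexConjugate

/-!
# Project CK: data of a certificate with the critical multiplier

Data of EK6 together with
* `HM1`: null Lagrangians `cos kη Re (X-1)`, `sin kη Re (X-1)`,
* `kb (1 - Re X)` and the constant `del` in the bulk,
* the multiplier `M₀ Re [Mq(m) e₀ (X² - 1)]`, `M₀ Mq(m) = ∑ c lⁿ (conj m)^j`, given by lists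
  `MI` (inside the unit circle of `m`), `MO` (outside) of triples `(n, j, c)`, `j ≤ 2`, where
  `l = (1 - |m|²)/rF p (m)` inside and `l = (|m|² - 1)/rF q (m)` outside.
-/

namespace Pool.Agent.Helper71.CK

open Pool.Sos71
open Pool.EK71 Pool.Agent.Helper52.EK Pool.Agent.Helper2.EK
open Pool.Agent.Helper69.EK3 hiding qX qY qL Rr c1_Rr c2_Rr Rr_le Dn Dn_ev Rr_conj_even Rr_conj_odd Rs dEta_conj px px_o csE_re EHM NM KM mulE eTT eCon Dat.NT Dat.KT px_Con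
open Pool.Agent.Helper69.EK5 (DQ Dd Dd_pos Dd_low Dn Dn_ev)
open Pool.Agent.Helper69.EK6 (px px_o csE_re)
open Pool.Agent.Helper71.EKC (c1_unique)
open Pool.Agent.Helper69.EK3.Dat (SideOk)
open Pool.Agent.Helper20.CK (cMj re_cMj)

structure DatM where
  c : Pool.Agent.Helper69.EK6.Dat
  HM1 : List (ℕ × Bool × ℤ)
  kb : ℤ
  del : ℤ
  MI : List (ℕ × ℕ × ℤ)
  MO : List (ℕ × ℕ × ℤ)

/-! ### expressions -/

/-- `c cos kη Re (X-1)` or `c sin kη Re (X-1)`, times `D^K` -/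
def EHM1 (a : DQ) (K h : ℕ) (t : ℕ × Bool × ℤ) : Ex :=
  Ex.mul (Ex.mul (Ex.sc t.2.2 (if t.2.1 then (csE t.1).1 else (csE t.1).2)) (Ex.pow eo (h - t.1)))
    (Ex.bp (mu2 [[0], [1]] (Dn a K)))

/-- `c lⁿ Re [(conj m)^j e₀ (X² - 1)]`, times `D^K` -/
def EMT (a : DQ) (K h : ℕ) (t : ℕ × ℕ × ℤ) : Ex :=
  Ex.mul (Ex.mul (Ex.pow (Ex.va 0) t.1) (Ex.sc t.2.2 (cMj t.2.1).r))
    (Ex.mul (Ex.pow eo (h - 2)) (Ex.bp (Dn a K)))

namespace DatM
variable (d : DatM)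

/-- `kb (1 - Re X) + del` and the families `HM1`, times `D^K` -/
def tX : Ex :=
  sumE (EHM1 d.c.a d.c.K d.c.h)
    (Ex.mul (Ex.pow eo d.c.h) (Ex.bp (mu2 [[d.del], [Int.neg d.kb]] (Dn d.c.a d.c.K)))) d.HM1

def tSide (f : Sd) (L : List (ℕ × ℕ × ℤ)) : Ex :=
  Ex.add (d.c.tSide f) (sumE (EMT d.c.a d.c.K d.c.h) d.tX L)

/-- the target inside -/
def tIn : Ex := d.tSide d.c.fi d.MI
/-- the target outside -/
def tOut : Ex := d.tSide d.c.fo d.MO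

/-- conditions on the data -/
def wf : Bool :=
  d.c.wf && d.HM1.all (fun t => Nat.ble 1 t.1 && Nat.ble t.1 4) &&
  d.MI.all (fun t => Nat.ble t.2.1 2) && d.MO.all (fun t => Nat.ble t.2.1 2)

structure Wf : Prop where
  c : d.c.Wf
  hm : ∀ t ∈ d.HM1, 1 ≤ t.1 ∧ t.1 ≤ 4
  mi : ∀ t ∈ d.MI, t.2.1 ≤ 2
  mo : ∀ t ∈ d.MO, t.2.1 ≤ 2

theorem wf_iff (h : d.wf = true) : d.Wf := by
  simp only [wf, Bool.and_eq_true, Nat.ble_eq, List.all_eq_true] at h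
  obtain ⟨⟨⟨h1, h2⟩, h3⟩, h4⟩ := h
  exact ⟨Pool.Agent.Helper69.EK6.Dat.wf_iff d.c h1, h2, h3, h4⟩

end DatM

/-! ### the multiplier -/

/-- `∑ c lⁿ (conj m)^j` -/
noncomputable def MS (L : List (ℕ × ℕ × ℤ)) (l : ℝ) (m : ℂ) : ℂ :=
  (L.map fun t => (t.2.2 : ℂ) * ((l : ℂ) ^ t.1 * conj m ^ t.2.1)).sum

/-- **the multiplier** `Mq(m)` -/
noncomputable def Mq (M : ℤ) (MI MO : List (ℕ × ℕ × ℤ)) (p0 p1 p2 q0 q1 q2 : ℝ) (m : ℂ) : ℂ :=
  if ‖m‖ ≤ 1 then MS MI ((1 - ‖m‖ ^ 2) / rF p0 p1 p2 m) m / (M : ℂ)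
  else MS MO ((‖m‖ ^ 2 - 1) / rF q0 q1 q2 m) m / (M : ℂ)

theorem MS_conj (L : List (ℕ × ℕ × ℤ)) (l : ℝ) (m : ℂ) :
    MS L l (conj m) = conj (MS L l m) := by
  unfold MS
  induction L with
  | nil => simp
  | cons t L ih =>
    simp only [List.map_cons, List.sum_cons, map_add, ih, map_mul, map_pow, conj_ofReal,
      map_intCast]

theorem rF_conj' (p0 p1 p2 : ℝ) (m : ℂ) : rF p0 p1 p2 (conj m) = rF p0 p1 p2 m := by
  rw [rF_eq, rF_eq, norm_conj, conj_re]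

theorem Mq_conj (M : ℤ) (MI MO : List (ℕ × ℕ × ℤ)) (p0 p1 p2 q0 q1 q2 : ℝ) (m : ℂ) :
    Mq M MI MO p0 p1 p2 q0 q1 q2 (conj m) = conj (Mq M MI MO p0 p1 p2 q0 q1 q2 m) := by
  unfold Mq
  rw [norm_conj, rF_conj', rF_conj']
  split_ifs
  · rw [MS_conj, map_div₀, map_intCast]
  · rw [MS_conj, map_div₀, map_intCast]

/-- on the unit circle only the terms `n = 0` remain -/
theorem MS_zero (L : List (ℕ × ℕ × ℤ)) (m : ℂ) :
    MS L 0 m = MS (L.filter fun t => t.1 == 0) 0 m := by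
  unfold MS
  induction L with
  | nil => simp
  | cons t L ih =>
    obtain ⟨n, j, c⟩ := t
    rw [List.map_cons, List.sum_cons, ih]
    cases n with
    | zero => simp
    | succ n => simp

/-! ### values -/

section val
variable (l η : ℝ) (X Y : ℂ)

theorem EHM1_re (a : DQ) (K h : ℕ) (t : ℕ × Bool × ℤ) :
    (EHM1 a K h t).re (px l η X Y) = Dd a X.re X.im ^ K *
      ((t.2.2 : ℝ) * (trg t.1 t.2.1 η * ((X - 1) ^ 1).re)) := by
  have h1 := csE_re t.1 l η X Y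
  have e : (EHM1 a K h t).re (px l η X Y) = (t.2.2 : ℝ) *
      ((if t.2.1 then (csE t.1).1 else (csE t.1).2).re (px l η X Y)) *
      (eo.re (px l η X Y) ^ (h - t.1)) * ev2 (X.re - 1) X.im (mu2 [[0], [1]] (Dn a K)) := rfl
  have e2 : ev2 (X.re - 1) X.im [[0], [1]] = X.re - 1 := by
    simp only [ev2, ev1]
    push_cast
    ring
  rw [e, px_o, one_pow, ev2_mu, e2, Dn_ev, pow_one, sub_re, one_re]
  unfold trg
  cases hb : t.2.1
  · simp only [Bool.false_eq_true, if_false, h1.2]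
    ring
  · simp only [if_true, h1.1]
    ring

theorem EMT_re (a : DQ) (K h : ℕ) (t : ℕ × ℕ × ℤ) (ht : t.2.1 ≤ 2) :
    (EMT a K h t).re (px l η X Y) = Dd a X.re X.im ^ K *
      ((t.2.2 : ℂ) * ((l : ℂ) ^ t.1 * conj (mX X Y (Real.sin η) (Real.cos η)) ^ t.2.1) *
        e0 (Real.sin η) (Real.cos η) * (X ^ 2 - 1)).re := by
  have h1 := re_cMj l η X Y ht
  have e : (EMT a K h t).re (px l η X Y) = l ^ t.1 * ((t.2.2 : ℝ) *
      (cMj t.2.1).r.re (px l η X Y)) * (eo.re (px l η X Y) ^ (h - 2) *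
        ev2 (X.re - 1) X.im (Dn a K)) := rfl
  rw [e, px_o, one_pow, Dn_ev, h1]
  have e2 : (t.2.2 : ℂ) * ((l : ℂ) ^ t.1 * conj (mX X Y (Real.sin η) (Real.cos η)) ^ t.2.1) *
      e0 (Real.sin η) (Real.cos η) * (X ^ 2 - 1) = ((t.2.2 * l ^ t.1 : ℝ) : ℂ) *
      (conj (mX X Y (Real.sin η) (Real.cos η)) ^ t.2.1 * e0 (Real.sin η) (Real.cos η) *
        (X ^ 2 - 1)) := by
    push_cast
    ring
  rw [e2, re_ofReal_mul]
  ring

end val

namespace DatM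
variable (d : DatM)

/-- the total null Lagrangian -/
noncomputable def NT (X Y : ℂ) (η : ℝ) : ℝ :=
  d.c.NT X Y η + (d.HM1.map fun t => (t.2.2 : ℝ) * (trg t.1 t.2.1 η * ((X - 1) ^ 1).re)).sum

/-- its centre function -/
noncomputable def KT (X Y : ℂ) : ℝ :=
  d.c.KT X Y + (d.HM1.map fun t => (t.2.2 : ℝ) *
    ((∫ u in (0:ℝ)..(π / 2), trg t.1 t.2.1 u) * ((X - 1) ^ 1).re)).sum

variable {d}

theorem isNull_NT (w : d.Wf) : IsNull DiscP d.NT d.KT :=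
  (Pool.Agent.Helper69.EK6.Dat.isNull_NT w.c).add
    (IsNull.list d.HM1 fun t _ => (isNull_har (trg_cont t.1 t.2.1) 1 (by norm_num)).const_mul _)

theorem tX_re (l η : ℝ) (X Y : ℂ) : d.tX.re (px l η X Y) = Dd d.c.a X.re X.im ^ d.c.K *
    ((d.HM1.map fun t => (t.2.2 : ℝ) * (trg t.1 t.2.1 η * ((X - 1) ^ 1).re)).sum +
      (d.kb * (1 - X.re) + d.del)) := by
  unfold tX
  rw [sumE_re, map_sum_congr d.HM1 fun t _ => EHM1_re l η X Y d.c.a d.c.K d.c.h t, map_sum_mul]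
  have e1 : (Ex.mul (Ex.pow eo d.c.h) (Ex.bp (mu2 [[d.del], [Int.neg d.kb]]
      (Dn d.c.a d.c.K)))).re (px l η X Y) = (eo.re (px l η X Y)) ^ d.c.h *
      ev2 (X.re - 1) X.im (mu2 [[d.del], [Int.neg d.kb]] (Dn d.c.a d.c.K)) := rfl
  have e2 : ev2 (X.re - 1) X.im [[d.del], [Int.neg d.kb]] = d.kb * (1 - X.re) + d.del := by
    have e3 : Int.neg d.kb = - d.kb := rfl
    rw [e3]
    simp only [ev2, ev1]
    push_cast
    ring
  rw [e1, px_o, one_pow, ev2_mu, e2, Dn_ev]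
  ring

theorem mt_re {L : List (ℕ × ℕ × ℤ)} (hL : ∀ t ∈ L, t.2.1 ≤ 2) (l η : ℝ) (X Y : ℂ) :
    (L.map fun t => (EMT d.c.a d.c.K d.c.h t).re (px l η X Y)).sum =
      Dd d.c.a X.re X.im ^ d.c.K * (MS L l (mX X Y (Real.sin η) (Real.cos η)) *
        e0 (Real.sin η) (Real.cos η) * (X ^ 2 - 1)).re := by
  rw [map_sum_congr L fun t ht => EMT_re l η X Y d.c.a d.c.K d.c.h t (hL t ht), map_sum_mul]
  congr 1
  unfold MS
  induction L with
  | nil => simp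
  | cons t L ih =>
    rw [List.map_cons, List.sum_cons, ih fun s hs => hL s (List.mem_cons_of_mem _ hs),
      List.map_cons, List.sum_cons, add_mul, add_mul, add_re]

theorem tSide_re (w : d.Wf) {f : Sd} {L : List (ℕ × ℕ × ℤ)} (hL : ∀ t ∈ L, t.2.1 ≤ 2)
    {X Y : ℂ} (hX : X ≠ 0) (l η : ℝ)
    (h : (Pool.Agent.Helper69.EK6.eCon f).re (px l η X Y) = 0) :
    (d.tSide f L).re (px l η X Y) = Dd d.c.a X.re X.im ^ d.c.K *
      (d.NT X Y η + (d.c.lam * ‖X - 1‖ ^ 2 + d.c.a2 * ((X.re - 1) ^ 2 - X.im ^ 2)) +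
        (d.kb * (1 - X.re) + d.del) +
        (MS L l (mX X Y (Real.sin η) (Real.cos η)) * e0 (Real.sin η) (Real.cos η) *
          (X ^ 2 - 1)).re - (Pool.Agent.Helper69.EK6.eTT d.c.M f).re (px l η X Y)) := by
  have e : (d.tSide f L).re (px l η X Y) = (d.c.tSide f).re (px l η X Y) +
      (sumE (EMT d.c.a d.c.K d.c.h) d.tX L).re (px l η X Y) := rfl
  rw [e, sumE_re, tX_re, mt_re hL,
    Pool.Agent.Helper69.EK6.Dat.tSide_re w.c f hX l η h]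
  unfold NT
  ring

end DatM

end Pool.Agent.Helper71.CK
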