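import Pool.Agent.Helper71.Sos.Side
set_option autoImplicit false

/-!
Growth version of `Sos/Bdd.lean` and `Sos/Side.lean`: the basis of a block may have the degree
`K + i` in `u, v` with a factor `Sⁱ`, on the domain `S √(1 + u² + v²) ≤ 10`.
-/

namespace Pool.Sos71.BddG

open Pool.Sos71
open Pool.Sos71.Bdd (rho rho_one rho_sq f_le g_le)

/-- no factors `P, R`, and degree at most `K + i` in `u, v`, with a factor `Sⁱ` -/
def mob (K : ℕ) (m : Mon) : Bool := Nat.beq m.d 0 && Nat.beq m.e 0 && Nat.ble (m.f + m.g) (K + m.b)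

/-- the basis has no factors `P, R`, and degrees at most `K` in `u, v` -/
def itb (K : ℕ) : List Itm → Bool
  | [] => true
  | i :: it => mob K (i.m.add i.f.m1) && mob K (i.m.add i.f.m2) && itb K it

theorem mob_iff {K : ℕ} {m : Mon} (h : mob K m = true) : m.d = 0 ∧ m.e = 0 ∧ m.f + m.g ≤ K + m.b := by
  simp only [mob, Bool.and_eq_true, Nat.ble_eq] at h
  obtain ⟨⟨h1, h2⟩, h3⟩ := h
  exact ⟨Nat.eq_of_beq_eq_true h1, Nat.eq_of_beq_eq_true h2, h3⟩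

/-- points of the domain -/
def Dom0 (L : ℝ) (x : Pnt) : Prop := (0 ≤ x.a ∧ x.a ≤ L) ∧ |x.b| * rho x ≤ 10 ∧ |x.c| ≤ 1

theorem mon_le {K : ℕ} {L : ℝ} (hL : 1 ≤ L) {x : Pnt} (hx : Dom0 L x) {m : Mon}
    (hd : m.d = 0) (he : m.e = 0) (h : m.f + m.g ≤ K + m.b) :
    |m.val x| ≤ L ^ m.a * 10 ^ m.b * rho x ^ K := by
  obtain ⟨⟨a0, a1⟩, b1, c1⟩ := hx
  have hr := rho_one x
  unfold Mon.val
  rw [hd, he, pow_zero, pow_zero, mul_one, mul_one]
  simp only [abs_mul, abs_pow]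
  have e1 : |x.a| ^ m.a ≤ L ^ m.a := by
    rw [abs_of_nonneg a0]
    exact pow_le_pow_left₀ a0 a1 _
  have hr0 : 0 ≤ rho x := by linarith
  have e2 : (|x.b| * rho x) ^ m.b ≤ 10 ^ m.b :=
    pow_le_pow_left₀ (mul_nonneg (abs_nonneg _) hr0) b1 _
  have e3 : |x.c| ^ m.c ≤ 1 := pow_le_one₀ (abs_nonneg _) c1
  have e4 : |x.f| ^ m.f ≤ rho x ^ m.f := pow_le_pow_left₀ (abs_nonneg _) (f_le x) _
  have e5 : |x.g| ^ m.g ≤ rho x ^ m.g := pow_le_pow_left₀ (abs_nonneg _) (g_le x) _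
  have hL0 : 0 ≤ L ^ m.a := by positivity
  have e6 : rho x ^ (m.f + m.g) ≤ rho x ^ (K + m.b) := pow_le_pow_right₀ hr h
  calc |x.a| ^ m.a * |x.b| ^ m.b * |x.c| ^ m.c * |x.f| ^ m.f * |x.g| ^ m.g
      ≤ L ^ m.a * |x.b| ^ m.b * 1 * rho x ^ m.f * rho x ^ m.g := by gcongr
    _ = L ^ m.a * |x.b| ^ m.b * rho x ^ (m.f + m.g) := by rw [pow_add]; ring
    _ ≤ L ^ m.a * |x.b| ^ m.b * rho x ^ (K + m.b) := by gcongr
    _ = L ^ m.a * (|x.b| * rho x) ^ m.b * rho x ^ K := by rw [pow_add, mul_pow]; ring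
    _ ≤ L ^ m.a * 10 ^ m.b * rho x ^ K := by gcongr

theorem itb_cons {K : ℕ} {i : Itm} {it : List Itm} (h : itb K (i :: it) = true) :
    mob K (i.m.add i.f.m1) = true ∧ mob K (i.m.add i.f.m2) = true ∧ itb K it = true := by
  simp only [itb, Bool.and_eq_true] at h
  obtain ⟨⟨h1, h2⟩, h3⟩ := h
  exact ⟨h1, h2, h3⟩

/-- the bound of one element -/
noncomputable def cb (L : ℝ) (i : Itm) : ℝ :=
  i.f.c * (L ^ (i.m.add i.f.m1).a * 10 ^ (i.m.add i.f.m1).b) +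
    i.f.d * (L ^ (i.m.add i.f.m2).a * 10 ^ (i.m.add i.f.m2).b)

theorem cb_nonneg {L : ℝ} (hL : 1 ≤ L) (i : Itm) : 0 ≤ cb L i := by unfold cb; positivity

theorem itm_le {K : ℕ} {L : ℝ} (hL : 1 ≤ L) {x : Pnt} (hx : Dom0 L x) {i : Itm}
    (h1 : mob K (i.m.add i.f.m1) = true) (h2 : mob K (i.m.add i.f.m2) = true) :
    |i.re x| ≤ cb L i * rho x ^ K := by
  obtain ⟨a1, a2, a3⟩ := mob_iff h1
  obtain ⟨b1, b2, b3⟩ := mob_iff h2
  have g1 := mon_le hL hx a1 a2 a3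
  have g2 := mon_le hL hx b1 b2 b3
  have c1 : (0:ℝ) ≤ i.f.c := Nat.cast_nonneg _
  have c2 : (0:ℝ) ≤ i.f.d := Nat.cast_nonneg _
  have k1 := mul_le_mul_of_nonneg_left g1 c1
  have k2 := mul_le_mul_of_nonneg_left g2 c2
  have e : ∀ s : ℝ, |s| ≤ 1 → |i.f.c * (i.m.add i.f.m1).val x + s * (i.f.d * (i.m.add i.f.m2).val x)| ≤
      cb L i * rho x ^ K := by
    intro s hs
    refine (abs_add_le _ _).trans ?_
    rw [abs_mul, abs_mul s, abs_mul (i.f.d : ℝ), abs_of_nonneg c1, abs_of_nonneg c2]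
    have : |s| * (i.f.d * |(i.m.add i.f.m2).val x|) ≤ i.f.d * |(i.m.add i.f.m2).val x| :=
      mul_le_of_le_one_left (mul_nonneg c2 (abs_nonneg _)) hs
    unfold cb
    nlinarith
  unfold Itm.re Fac.re
  rcases i.f.s with _ | _
  · have := e 1 (by simp)
    rw [Mon.val_add, Mon.val_add] at this
    refine le_trans (le_of_eq ?_) this
    congr 1
    simp only
    ring
  · have := e (-1) (by simp)
    rw [Mon.val_add, Mon.val_add] at this
    refine le_trans (le_of_eq ?_) this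
    congr 1
    simp only
    ring

theorem rab_bd {K : ℕ} {L : ℝ} (hL : 1 ≤ L) (it : List Itm) (h : itb K it = true) :
    ∃ C : ℝ, 0 ≤ C ∧ ∀ x, Dom0 L x → rab x it ≤ C * rho x ^ K := by
  induction it with
  | nil => exact ⟨0, le_rfl, fun x _ => by simp [rab]⟩
  | cons i it ih =>
    obtain ⟨h1, h2, h4⟩ := itb_cons h
    obtain ⟨C, hC, hC'⟩ := ih h4
    have hcb := cb_nonneg hL i
    refine ⟨cb L i + C, by positivity, fun x hx => ?_⟩
    have := itm_le hL hx h1 h2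
    have := hC' x hx
    rw [rab]
    linarith

theorem rz2_bd {K : ℕ} {L : ℝ} (hL : 1 ≤ L) (it : List Itm) (h : itb K it = true) :
    ∃ C : ℝ, 0 ≤ C ∧ ∀ x, Dom0 L x → rz2 x it ≤ C * (rho x ^ K) ^ 2 := by
  induction it with
  | nil => exact ⟨0, le_rfl, fun x _ => by simp [rz2]⟩
  | cons i it ih =>
    obtain ⟨h1, h2, h4⟩ := itb_cons h
    obtain ⟨C, hC, hC'⟩ := ih h4
    have hcb := cb_nonneg hL i
    refine ⟨(cb L i) ^ 2 + C, by positivity, fun x hx => ?_⟩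
    have h5 := itm_le hL hx h1 h2
    have h6 := hC' x hx
    have h7 : i.re x ^ 2 ≤ (cb L i * rho x ^ K) ^ 2 := by
      rw [← sq_abs]
      exact pow_le_pow_left₀ (abs_nonneg _) h5 2
    rw [rz2]
    nlinarith

theorem rsq_bd {B off : ℕ} (hB : B = 2 * off) (h0 : 0 < off) {K : ℕ} {L : ℝ} (hL : 1 ≤ L)
    (it : List Itm) (h : itb K it = true) (Ls : List ℕ) :
    ∃ C : ℝ, 0 ≤ C ∧ ∀ x, Dom0 L x → rsq B off x it Ls ≤ C * (rho x ^ K) ^ 2 := by
  induction it generalizing Ls with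
  | nil => exact ⟨0, le_rfl, fun x _ => by simp [rsq]⟩
  | cons i it ih =>
    cases Ls with
    | nil => exact ⟨0, le_rfl, fun x _ => by simp [rsq]⟩
    | cons l Ls =>
      obtain ⟨C, hC, hC'⟩ := ih (itb_cons h).2.2 Ls
      obtain ⟨D, hD, hD'⟩ := rab_bd hL (i :: it) h
      refine ⟨(off * D) ^ 2 + C, by positivity, fun x hx => ?_⟩
      have h1 := rl_abs hB h0 x (i :: it) l
      have h2 := hD' x hx
      have h3 := hC' x hx
      have hoff : (0 : ℝ) ≤ off := Nat.cast_nonneg _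
      have h4 : |rl B off x (i :: it) l| ≤ off * D * rho x ^ K := by
        refine h1.trans ?_
        rw [mul_assoc]
        exact mul_le_mul_of_nonneg_left h2 hoff
      have h5 : rl B off x (i :: it) l ^ 2 ≤ (off * D * rho x ^ K) ^ 2 := by
        rw [← sq_abs]
        exact pow_le_pow_left₀ (abs_nonneg _) h4 2
      rw [rsq]
      nlinarith

/-- **the form of a block is bounded** -/
theorem q_bd {b : Blk} {k : ℕ} {r : Rad} (hb : b.okW k r = true) {K : ℕ}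
    (hi : itb K b.its = true) {L : ℝ} (hL : 1 ≤ L) :
    ∃ C : ℝ, 0 ≤ C ∧ ∀ x, Dom0 L x → b.q x ≤ C * (1 + x.f ^ 2 + x.g ^ 2) ^ K := by
  simp only [Blk.okW, Bool.and_eq_true, Nat.blt_eq] at hb
  obtain ⟨⟨⟨⟨⟨⟨_, _⟩, h3⟩, h4⟩, h5⟩, h6⟩, _⟩ := hb
  have h3 := Nat.eq_of_beq_eq_true h3
  have h5 := Nat.eq_of_beq_eq_true h5
  obtain ⟨C, hC, hC'⟩ := rsq_bd h3 h4 hL b.its hi b.L
  obtain ⟨D, hD, hD'⟩ := rz2_bd hL b.its hi
  refine ⟨C + b.dl * D + (b.its.length + 1) * b.offE * D, by positivity, fun x hx => ?_⟩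
  have e : (rho x ^ K) ^ 2 = (1 + x.f ^ 2 + x.g ^ 2) ^ K := by
    rw [← rho_sq, ← pow_mul, ← pow_mul, mul_comm]
  have h7 := hC' x hx
  have h8 := hD' x hx
  have h9 := rex_abs h5 h6 x b.its b.E
  have h10 := le_abs_self (rex b.BE b.offE x b.its b.E)
  rw [e] at h7 h8
  have h11 : (b.dl : ℝ) * rz2 x b.its ≤ b.dl * (D * (1 + x.f ^ 2 + x.g ^ 2) ^ K) :=
    mul_le_mul_of_nonneg_left h8 (Nat.cast_nonneg _)
  have h12 : ((b.its.length : ℝ) + 1) * b.offE * rz2 x b.its ≤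
      ((b.its.length : ℝ) + 1) * b.offE * (D * (1 + x.f ^ 2 + x.g ^ 2) ^ K) :=
    mul_le_mul_of_nonneg_left h8 (by positivity)
  have h13 : 0 ≤ ((b.its.length : ℝ) + 1) * b.offE * (D * (1 + x.f ^ 2 + x.g ^ 2) ^ K) := by
    positivity
  rw [Blk.q]
  nlinarith

end Pool.Sos71.BddG

namespace Pool.Sos71

open Pool.Agent.Helper69.EK6 (eDi)

/-- the condition of growth of the domain -/
def DomW (x : Pnt) : Prop := x.b ^ 2 * (1 + x.f ^ 2 + x.g ^ 2) ≤ 100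

/-- nonnegativity of the target of one side, with two disc multipliers with growth -/
def SideG (K : ℕ) (Ln Ld : ℤ) (t : Ex) : Prop :=
  ∃ B : ℝ, ∀ x : Pnt, 0 ≤ x.b → x.b ≤ x.c → x.b ^ 2 + x.c ^ 2 = 1 → 0 ≤ x.a →
    (Ld : ℝ) * x.a ≤ Ln → DomW x → ∃ q1 q2 : ℝ, 0 ≤ q1 ∧
      q1 ≤ B * (1 + x.f ^ 2 + x.g ^ 2) ^ (K + 1) ∧
      0 ≤ q2 ∧ q2 ≤ B * (1 + x.f ^ 2 + x.g ^ 2) ^ (K + 1) ∧
      q1 * (eDi 1).re x + q2 * (eDi (-1)).re x ≤ t.re x

variable {Ln Ld : ℤ} {x : Pnt}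

/-- a block with an admissible multiplier -/
def GoodG (K : ℕ) (Ln Ld : ℤ) (b : Blk) : Prop :=
  (∀ x, DomL Ln Ld x → 0 ≤ b.mult.re x) ∨
    (BddG.itb (K + 1) b.its = true ∧ ((∀ x, DomL Ln Ld x → ∃ w : ℝ, 0 ≤ w ∧ w ≤ 1 ∧
      b.mult.re x = w * (eDi 1).re x) ∨ (∀ x, DomL Ln Ld x → ∃ w : ℝ, 0 ≤ w ∧ w ≤ 1 ∧
      b.mult.re x = w * (eDi (-1)).re x)))

section
variable {K : ℕ} {b : Blk}

lemma GoodG.one (h : b.mult = mOne) : GoodG K Ln Ld b :=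
  Or.inl fun x _ => by rw [h, mOne_re]; norm_num

lemma GoodG.ab (h : b.mult = mAB) : GoodG K Ln Ld b :=
  Or.inl fun x hx => by rw [h]; exact mAB_nonneg hx

lemma GoodG.l (h : b.mult = mL Ln Ld) : GoodG K Ln Ld b :=
  Or.inl fun x hx => by rw [h]; exact mL_nonneg hx

lemma GoodG.abl (h : b.mult = mABL Ln Ld) : GoodG K Ln Ld b :=
  Or.inl fun x hx => by rw [h]; exact mABL_nonneg hx

lemma GoodG.d1 (h : b.mult = eDi 1) (hi : BddG.itb (K + 1) b.its = true) : GoodG K Ln Ld b :=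
  Or.inr ⟨hi, Or.inl fun x _ => ⟨1, zero_le_one, le_rfl, by rw [h, one_mul]⟩⟩

lemma GoodG.d2 (h : b.mult = eDi (-1)) (hi : BddG.itb (K + 1) b.its = true) :
    GoodG K Ln Ld b :=
  Or.inr ⟨hi, Or.inr fun x _ => ⟨1, zero_le_one, le_rfl, by rw [h, one_mul]⟩⟩

lemma GoodG.da1 (h : b.mult = .mul mAB (eDi 1)) (hi : BddG.itb (K + 1) b.its = true) :
    GoodG K Ln Ld b :=
  Or.inr ⟨hi, Or.inl fun x hx => ⟨mAB.re x, mAB_nonneg hx, mAB_le hx, by rw [h]; rfl⟩⟩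

lemma GoodG.da2 (h : b.mult = .mul mAB (eDi (-1))) (hi : BddG.itb (K + 1) b.its = true) :
    GoodG K Ln Ld b :=
  Or.inr ⟨hi, Or.inr fun x hx => ⟨mAB.re x, mAB_nonneg hx, mAB_le hx, by rw [h]; rfl⟩⟩

end

lemma DomL.domG (h : DomL Ln Ld x) (hw : DomW x) (hd : 0 < Ld) {L : ℝ}
    (hL : (Ln : ℝ) / Ld ≤ L) : BddG.Dom0 L x := by
  have hd' : (0 : ℝ) < Ld := by exact_mod_cast hd
  have h1 : x.a ≤ Ln / Ld := by
    rw [le_div_iff₀ hd']
    linarith [h.a1]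
  have hc := h.b0.trans h.bc
  have hr := Bdd.rho_one x
  have hr2 := Bdd.rho_sq x
  unfold DomW at hw
  rw [← hr2, ← mul_pow] at hw
  refine ⟨⟨h.a0, h1.trans hL⟩, ?_, ?_⟩
  · rw [abs_of_nonneg h.b0]
    have h0 : 0 ≤ x.b * Bdd.rho x := mul_nonneg h.b0 (by linarith)
    nlinarith
  · rw [abs_of_nonneg hc]
    nlinarith [h.u1, sq_nonneg x.b]

theorem brs_sideG {k : ℕ} {r : Rad} {N : Bd} {K : ℕ} (hd : 0 < Ld) (bs : List Blk)
    (hk : bokW k r N bs = true) (hg : ∀ b ∈ bs, GoodG K Ln Ld b) :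
    ∃ B : ℝ, 0 ≤ B ∧ ∀ x : Pnt, DomL Ln Ld x → DomW x → ∃ q1 q2 : ℝ, 0 ≤ q1 ∧
      q1 ≤ B * (1 + x.f ^ 2 + x.g ^ 2) ^ (K + 1) ∧ 0 ≤ q2 ∧
      q2 ≤ B * (1 + x.f ^ 2 + x.g ^ 2) ^ (K + 1) ∧
      q1 * (eDi 1).re x + q2 * (eDi (-1)).re x ≤ brs x bs := by
  induction bs with
  | nil =>
    refine ⟨0, le_rfl, fun x _ _ => ⟨0, 0, le_rfl, by simp, le_rfl, by simp, ?_⟩⟩
    simp [brs]
  | cons b bs ih =>
    simp only [bokW, Bool.and_eq_true] at hk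
    obtain ⟨⟨k1, _⟩, k3⟩ := hk
    obtain ⟨B, hB, ih⟩ := ih k3 fun b' hb => hg b' (List.mem_cons_of_mem _ hb)
    rcases hg b List.mem_cons_self with h | ⟨hi, h⟩
    · refine ⟨B, hB, fun x hx hw => ?_⟩
      obtain ⟨q1, q2, a1, a2, a3, a4, a5⟩ := ih x hx hw
      refine ⟨q1, q2, a1, a2, a3, a4, ?_⟩
      have := mul_nonneg (h x hx) (Blk.q_nonnegW k1 x)
      rw [brs]
      linarith
    · obtain ⟨C, hC, hC'⟩ := BddG.q_bd k1 hi (L := max 1 ((Ln : ℝ) / Ld)) (le_max_left _ _)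
      refine ⟨B + C, by positivity, fun x hx hw => ?_⟩
      obtain ⟨q1, q2, a1, a2, a3, a4, a5⟩ := ih x hx hw
      have hq := Blk.q_nonnegW k1 x
      have hq' := hC' x (hx.domG hw hd (le_max_right _ _))
      have hr : 0 ≤ (1 + x.f ^ 2 + x.g ^ 2) ^ (K + 1) := by positivity
      rcases h with h | h
      · obtain ⟨w, w0, w1, hw⟩ := h x hx
        have h1 : w * b.q x ≤ b.q x := mul_le_of_le_one_left hq w1
        refine ⟨q1 + w * b.q x, q2, add_nonneg a1 (mul_nonneg w0 hq), ?_, a3, ?_, ?_⟩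
        · rw [add_mul]
          linarith
        · rw [add_mul]
          linarith [mul_nonneg hC hr]
        · rw [brs, hw]
          linarith
      · obtain ⟨w, w0, w1, hw⟩ := h x hx
        have h1 : w * b.q x ≤ b.q x := mul_le_of_le_one_left hq w1
        refine ⟨q1, q2 + w * b.q x, a1, ?_, add_nonneg a3 (mul_nonneg w0 hq), ?_, ?_⟩
        · rw [add_mul]
          linarith [mul_nonneg hC hr]
        · rw [add_mul]
          linarith
        · rw [brs, hw]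
          linarith

/-- **the hypothesis of the growth version from a certificate** -/
theorem side_ofG {D : Cert} (h : D.checkW = true) {K : ℕ} (hd : 0 < Ld)
    (hg : ∀ b ∈ D.blocks, GoodG K Ln Ld b) : SideG K Ln Ld D.target := by
  have hk : bokW D.k D.r D.N D.blocks = true := by
    simp only [Cert.checkW, Bool.and_eq_true] at h
    exact h.1.1.2
  have hs : (0 : ℝ) < D.s := by
    simp only [Cert.checkW, Bool.and_eq_true, Nat.blt_eq] at h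
    exact_mod_cast h.1.1.1.2
  obtain ⟨B, hB, hb⟩ := brs_sideG hd D.blocks hk hg
  refine ⟨B / D.s, fun x h1 h2 h3 h4 h5 h6 => ?_⟩
  obtain ⟨q1, q2, a1, a2, a3, a4, a5⟩ := hb x ⟨h1, h2, h3, h4, h5⟩ h6
  rw [← Cert.soundW h x] at a5
  refine ⟨q1 / D.s, q2 / D.s, div_nonneg a1 hs.le, ?_, div_nonneg a3 hs.le, ?_, ?_⟩
  · rw [div_mul_eq_mul_div]
    exact div_le_div_of_nonneg_right a2 hs.le
  · rw [div_mul_eq_mul_div]
    exact div_le_div_of_nonneg_right a4 hs.le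
  · rw [div_mul_eq_mul_div, div_mul_eq_mul_div, ← add_div, div_le_iff₀ hs]
    linarith

end Pool.Sos71
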