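import Pool.Agent.Helper71.CK.DatG
import Pool.Agent.Helper71.CK.SideG
set_option autoImplicit false
open Complex MeasureTheory Metric Set
open scoped Real ComplexConjugate

/-!
# Project CK: the pointwise inequality with disc multipliers `≤ B (1 + |X - 1|²)`
-/

namespace Pool.Agent.Helper71.CK

open Pool.Sos71
open Pool.EK71 Pool.Agent.Helper52.EK Pool.Agent.Helper2.EK
open Pool.Agent.Helper69.EK3 hiding qX qY qL Rr c1_Rr c2_Rr Rr_le Dn Dn_ev Rr_conj_even Rr_conj_odd Rs dEta_conj px px_o csE_re EHM mulE eTT eCon Dat.NT Dat.KT px_Con px_TT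
open Pool.Agent.Helper69.EK5 (DQ Dd Dd_pos Dd_low DL e_D qX qY Rr c1_Rr Dn Dn_ev Rr_conj_even Rr_conj_odd Rs Dd_conj)
open Pool.Agent.Helper69.EK6 (px px_o csE_re eCon px_TT Side eDi px_Di)
open Pool.Agent.Helper69.EK6.Dat (SideOk_con)
open Pool.Agent.Helper69.EK3.Dat (SideOk disc_im half_bd)
open Pool.Agent.Helper20.EK7 (InL OutL)

variable {Ln Ld : ℤ}

/-- the domain of the growth condition -/
theorem domW_px {X Y : ℂ} {l η : ℝ} (hη : η ∈ Icc (0:ℝ) (π / 2))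
    (h9 : Real.sin η * ‖X‖ ≤ 9) : DomW (px l η X Y) := by
  obtain ⟨b1, b2⟩ := half_bd hη
  have h1 := Real.sin_sq_add_cos_sq (η / 2)
  have hs : Real.sin η = 2 * Real.sin (η / 2) * Real.cos (η / 2) := by
    rw [← Real.sin_two_mul]
    congr 1
    ring
  have hs' : Real.sin (η / 2) ^ 2 * 2 ≤ Real.sin η ^ 2 := by
    rw [hs]
    nlinarith [sq_nonneg (Real.sin (η / 2)), mul_nonneg (sq_nonneg (Real.sin (η / 2)))
      (sub_nonneg.2 (pow_le_pow_left₀ b1 b2 2))]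
  have hX : ‖X‖ ^ 2 = X.re ^ 2 + X.im ^ 2 := by
    rw [← Complex.normSq_eq_norm_sq, Complex.normSq_apply]
    ring
  have hs0 : 0 ≤ Real.sin η := by
    rw [hs]
    exact mul_nonneg (by linarith) (by linarith)
  have h2 : (Real.sin η * ‖X‖) ^ 2 ≤ 81 := by
    have := pow_le_pow_left₀ (mul_nonneg hs0 (norm_nonneg X)) h9 2
    linarith
  have h3 : Real.sin (η / 2) ^ 2 ≤ 1 := by nlinarith [sq_nonneg (Real.cos (η / 2))]
  show Real.sin (η / 2) ^ 2 * (1 + (X.re - 1) ^ 2 + X.im ^ 2) ≤ 100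
  have h4 : Real.sin (η / 2) ^ 2 * 2 * ‖X‖ ^ 2 ≤ 81 := by
    have := mul_le_mul_of_nonneg_right hs' (sq_nonneg ‖X‖)
    nlinarith
  have h5 : 1 + (X.re - 1) ^ 2 + X.im ^ 2 ≤ 3 + 2 * ‖X‖ ^ 2 := by
    rw [hX]
    nlinarith [sq_nonneg (X.re + 1), sq_nonneg X.im]
  have h6 := mul_le_mul_of_nonneg_left h5 (sq_nonneg (Real.sin (η / 2)))
  nlinarith

theorem SideG.apply {c : Pool.Agent.Helper69.EK6.Dat} {t : Ex} (h : SideG c.K Ln Ld t) :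
    ∃ B : ℝ, 0 ≤ B ∧ ∀ (X Y : ℂ) (l η : ℝ), η ∈ Icc (0:ℝ) (π / 2) →
      Real.sin η * ‖X‖ ≤ 9 → 0 ≤ l → (Ld : ℝ) * l ≤ Ln →
      ∃ q1 q2 : ℝ, 0 ≤ q1 ∧ q1 ≤ B * (1 + ‖X - 1‖ ^ 2) ∧ 0 ≤ q2 ∧ q2 ≤ B * (1 + ‖X - 1‖ ^ 2) ∧
      Dd c.a X.re X.im ^ c.K * (q1 * (16 - ‖dA 1 X Y (Real.sin η) (Real.cos η)‖ ^ 2) +
        q2 * (16 - ‖dA (-1) X Y (Real.sin η) (Real.cos η)‖ ^ 2)) ≤ t.re (px l η X Y) := by
  obtain ⟨B, hB⟩ := h
  obtain ⟨k, hk, hl⟩ := Dd_low c.a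
  refine ⟨|B| * k ^ c.K, by positivity, fun X Y l η hη h9 l0 l1 => ?_⟩
  obtain ⟨b1, b2⟩ := half_bd hη
  have hD := Dd_pos c.a X.re X.im
  have hDK : 0 < Dd c.a X.re X.im ^ c.K := pow_pos hD _
  obtain ⟨q1, q2, g1, g2, g3, g4, g5⟩ := hB (px l η X Y) b1 b2 (Real.sin_sq_add_cos_sq _) l0 l1
    (domW_px hη h9)
  have hX1 : 1 + ‖X - 1‖ ^ 2 = 1 + (X.re - 1) ^ 2 + X.im ^ 2 := by
    rw [← Complex.normSq_eq_norm_sq, Complex.normSq_apply]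
    simp only [sub_re, sub_im, one_re, one_im, sub_zero]
    ring
  have hu : (1 + (X.re - 1) ^ 2 + X.im ^ 2) ^ c.K ≤ k ^ c.K * Dd c.a X.re X.im ^ c.K := by
    rw [← mul_pow]
    refine pow_le_pow_left₀ (by positivity) ?_ _
    have := hl X.re X.im
    linarith
  have hb : B * (1 + (X.re - 1) ^ 2 + X.im ^ 2) ^ (c.K + 1) ≤
      |B| * k ^ c.K * (1 + ‖X - 1‖ ^ 2) * Dd c.a X.re X.im ^ c.K := by
    have h0 : 0 ≤ (1 + (X.re - 1) ^ 2 + X.im ^ 2) ^ (c.K + 1) := by positivity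
    have h1 : 0 ≤ |B| * (1 + (X.re - 1) ^ 2 + X.im ^ 2) := by positivity
    calc B * (1 + (X.re - 1) ^ 2 + X.im ^ 2) ^ (c.K + 1) ≤
          |B| * (1 + (X.re - 1) ^ 2 + X.im ^ 2) ^ (c.K + 1) :=
          mul_le_mul_of_nonneg_right (le_abs_self B) h0
      _ = |B| * (1 + (X.re - 1) ^ 2 + X.im ^ 2) *
          (1 + (X.re - 1) ^ 2 + X.im ^ 2) ^ c.K := by rw [pow_succ]; ring
      _ ≤ |B| * (1 + (X.re - 1) ^ 2 + X.im ^ 2) * (k ^ c.K * Dd c.a X.re X.im ^ c.K) :=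
          mul_le_mul_of_nonneg_left hu h1
      _ = _ := by rw [hX1]; ring
  refine ⟨q1 / Dd c.a X.re X.im ^ c.K, q2 / Dd c.a X.re X.im ^ c.K, div_nonneg g1 hDK.le, ?_,
    div_nonneg g3 hDK.le, ?_, ?_⟩
  · rw [div_le_iff₀ hDK]
    exact g2.trans hb
  · rw [div_le_iff₀ hDK]
    exact g4.trans hb
  · rw [px_Di, px_Di] at g5
    refine le_trans (le_of_eq ?_) g5
    push_cast
    field_simp

namespace DatG
variable {g : DatG} {ka kb p0 p1 p2 la lb q0 q1 q2 : ℝ} {Ln' Ld' : ℤ}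

/-- **the pointwise inequality**, growth class, disc multipliers with growth -/
theorem Ok.pointG (o : g.Ok ka kb p0 p1 p2 la lb q0 q1 q2 Ln Ld Ln' Ld')
    (hIn : SideG g.s.d.c.K Ln Ld g.tIn) (hOut : SideG g.s.d.c.K Ln' Ld' g.tOut) :
    ∃ B : ℝ, 0 ≤ B ∧
    ∀ G : ℂ → ℂ, Fld G ka kb p0 p1 p2 la lb q0 q1 q2 →
    ∀ X Y : ℂ, X ≠ 0 → ∀ η ∈ Icc (0:ℝ) (π / 2), Real.sin η * ‖X‖ ≤ 9 →
    ∃ l1 l2 : ℝ, 0 ≤ l1 ∧ l1 ≤ B * (1 + ‖X - 1‖ ^ 2) ∧ 0 ≤ l2 ∧ l2 ≤ B * (1 + ‖X - 1‖ ^ 2) ∧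
    g.s.d.c.M * ‖G (mX X Y (Real.sin η) (Real.cos η)) - e0 (Real.sin η) (Real.cos η)‖ ^ 2 +
      (l1 * (16 - ‖dA 1 X Y (Real.sin η) (Real.cos η)‖ ^ 2) +
        l2 * (16 - ‖dA (-1) X Y (Real.sin η) (Real.cos η)‖ ^ 2)) ≤
      g.NT X Y η + (g.s.d.c.lam * ‖X - 1‖ ^ 2 + g.s.d.c.a2 * ((X.re - 1) ^ 2 - X.im ^ 2)) +
        (g.s.d.kb * (1 - X.re) + g.s.d.del) +
        g.s.d.c.M * (g.s.Mu p0 p1 p2 q0 q1 q2 (mX X Y (Real.sin η) (Real.cos η)) *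
          e0 (Real.sin η) (Real.cos η) * (X ^ 2 - (1 + g.s.tn / g.s.td))).re := by
  obtain ⟨B1, hB1, k1⟩ := SideG.apply hIn
  obtain ⟨B2, hB2, k2⟩ := SideG.apply hOut
  have w := wf_iff g o.wf
  refine ⟨max B1 B2, le_max_of_le_left hB1, fun G hG X Y hX η hη h9 => ?_⟩
  have hM : (0:ℝ) < g.s.d.c.M := by exact_mod_cast o.M0
  have hMc : (g.s.d.c.M : ℂ) ≠ 0 := by exact_mod_cast hM.ne'
  have htd : (g.s.td : ℂ) ≠ 0 := by exact_mod_cast o.td0.ne'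
  have hD : 0 < Dd g.s.d.c.a X.re X.im ^ g.s.d.c.K := pow_pos (Dd_pos _ _ _) _
  have he : ‖e0 (Real.sin η) (Real.cos η)‖ = 1 := norm_e0 η
  have h1X : 0 ≤ 1 + ‖X - 1‖ ^ 2 := by positivity
  have m1 : B1 * (1 + ‖X - 1‖ ^ 2) ≤ max B1 B2 * (1 + ‖X - 1‖ ^ 2) :=
    mul_le_mul_of_nonneg_right (le_max_left _ _) h1X
  have m2 : B2 * (1 + ‖X - 1‖ ^ 2) ≤ max B1 B2 * (1 + ‖X - 1‖ ^ 2) :=
    mul_le_mul_of_nonneg_right (le_max_right _ _) h1X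
  -- the multiplier
  have hmul : ∀ z : ℂ, (g.s.d.c.M : ℝ) * (g.s.td * z / (g.s.d.c.M : ℂ) *
      e0 (Real.sin η) (Real.cos η) * (X ^ 2 - (1 + g.s.tn / g.s.td))).re =
      (z * e0 (Real.sin η) (Real.cos η) * (g.s.td * (X ^ 2 - 1) - g.s.tn)).re := by
    intro z
    rw [← re_ofReal_mul]
    congr 1
    push_cast
    field_simp
    ring
  obtain ⟨m, hm⟩ : ∃ m : ℂ, m = mX X Y (Real.sin η) (Real.cos η) := ⟨_, rfl⟩
  by_cases h1 : ‖m‖ ≤ 1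
  · obtain ⟨d1, d2, d3⟩ := o.lIn.l_bd o.inL h1
    obtain ⟨l, hl⟩ : ∃ l : ℝ, l = (1 - ‖m‖ ^ 2) / rF p0 p1 p2 m := ⟨_, rfl⟩
    have hL : (0:ℝ) < Ld := by exact_mod_cast o.Ld0
    rw [← hl] at d2 d3
    have hc : (eCon g.s.d.c.fi).re (px l η X Y) = 0 := by
      refine SideOk_con o.fi ?_ (by norm_num)
      rw [← hm, hl, div_mul_cancel₀ _ d1.ne']
      push_cast
      ring
    obtain ⟨l1, l2, a1, a2, a3, a4, h5⟩ := k1 X Y l η hη h9 d2 (by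
      rw [le_div_iff₀ hL] at d3
      linarith)
    have h6 : g.tIn.re (px l η X Y) = _ := tSide_re w w.d.mi hX l η hc
    rw [h6] at h5
    have h7 := le_of_mul_le_mul_left h5 hD
    rw [px_TT l η X Y o.fi.ma o.fi.mb o.fi.maa o.fi.mab o.fi.mbb (by rw [o.fi.sg]; norm_num),
      ← hm, o.fi.sg] at h7
    refine ⟨l1, l2, a1, a2.trans m1, a3, a4.trans m1, ?_⟩
    have h8 := mul_le_mul_of_nonneg_left (hG.gin m h1 _ he) hM.le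
    unfold Fq at h8
    rw [← hl] at h8
    rw [← hm]
    unfold DatT.Mu Mq
    rw [if_pos h1, ← hl, MS_scl, hmul]
    push_cast at h7
    rw [one_mul] at h7
    linarith
  · have h1' : 1 < ‖m‖ := not_le.1 h1
    obtain ⟨d1, d2, d3⟩ := o.lOut.l_bd o.outL h1'.le
    obtain ⟨l, hl⟩ : ∃ l : ℝ, l = (‖m‖ ^ 2 - 1) / rF q0 q1 q2 m := ⟨_, rfl⟩
    have hL : (0:ℝ) < Ld' := by exact_mod_cast o.Ld0'
    rw [← hl] at d2 d3
    have hc : (eCon g.s.d.c.fo).re (px l η X Y) = 0 := by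
      refine SideOk_con o.fo ?_ (by norm_num)
      rw [← hm, hl, div_mul_cancel₀ _ d1.ne']
      push_cast
      ring
    obtain ⟨l1, l2, a1, a2, a3, a4, h5⟩ := k2 X Y l η hη h9 d2 (by
      rw [le_div_iff₀ hL] at d3
      linarith)
    have h6 : g.tOut.re (px l η X Y) = _ := tSide_re w w.d.mo hX l η hc
    rw [h6] at h5
    have h7 := le_of_mul_le_mul_left h5 hD
    rw [px_TT l η X Y o.fo.ma o.fo.mb o.fo.maa o.fo.mab o.fo.mbb (by rw [o.fo.sg]; norm_num),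
      ← hm, o.fo.sg] at h7
    have e : (1 - ‖m‖ ^ 2) / rF q0 q1 q2 m = ((-1 : ℤ) : ℝ) * l := by
      rw [hl]
      push_cast
      ring
    refine ⟨l1, l2, a1, a2.trans m2, a3, a4.trans m2, ?_⟩
    have h8 := mul_le_mul_of_nonneg_left (hG.gout m h1' _ he) hM.le
    unfold Fq at h8
    rw [e] at h8
    rw [← hm]
    unfold DatT.Mu Mq
    rw [if_neg h1, ← hl, MS_scl, hmul]
    linarith

end DatG

end Pool.Agent.Helper71.CK
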