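import Pool.Agent.Helper71.CK.Dat
set_option autoImplicit false
open Complex MeasureTheory Metric Set
open scoped Real ComplexConjugate

/-!
# Project CK: the pointwise inequality with the critical multiplier
-/

namespace Pool.Agent.Helper71.CK

open Pool.Sos71
open Pool.EK71 Pool.Agent.Helper52.EK Pool.Agent.Helper2.EK
open Pool.Agent.Helper69.EK3 hiding qX qY qL Rr c1_Rr c2_Rr Rr_le Dn Dn_ev Rr_conj_even Rr_conj_odd Rs dEta_conj px px_o csE_re EHM NM KM mulE eTT eCon Dat.NT Dat.KT px_Con px_TT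
open Pool.Agent.Helper69.EK5 (DQ Dd Dd_pos Dd_low Dn Dn_ev)
open Pool.Agent.Helper69.EK6 (px px_o csE_re eCon px_TT Side)
open Pool.Agent.Helper69.EK6.Dat (SideOk_con)
open Pool.Agent.Helper71.EKC (c1_unique)
open Pool.Agent.Helper69.EK3.Dat (SideOk disc_im)
open Pool.Agent.Helper20.EK7 (InL OutL Gp)

/-! ### bounds of `l` -/

/-- `1 - |m|² ≤ L rF p (m)` -/
structure LIn (p0 p1 p2 L : ℝ) : Prop where
  lA : 0 ≤ L * (p1 + p2) + 1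
  lC : 0 ≤ L * (p0 + p1) - 1
  lB : (L * (2 * p1)) ^ 2 ≤ 4 * ((L * (p1 + p2) + 1) * (L * (p0 + p1) - 1))

/-- `|m|² - 1 ≤ L rF q (m)` -/
structure LOut (q0 q1 q2 L : ℝ) : Prop where
  lA : 0 ≤ L * (q1 + q2) - 1
  lC : 0 ≤ L * (q0 + q1) + 1
  lB : (L * (2 * q1)) ^ 2 ≤ 4 * ((L * (q1 + q2) - 1) * (L * (q0 + q1) + 1))

theorem LIn.l_bd {p0 p1 p2 L : ℝ} (h : LIn p0 p1 p2 L) (g : InL p0 p1 p2) {m : ℂ}
    (hm : ‖m‖ ≤ 1) : 0 < rF p0 p1 p2 m ∧ 0 ≤ (1 - ‖m‖ ^ 2) / rF p0 p1 p2 m ∧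
      (1 - ‖m‖ ^ 2) / rF p0 p1 p2 m ≤ L := by
  obtain ⟨c, hc, hl⟩ := g.low
  have h1 : 0 < rF p0 p1 p2 m := lt_of_lt_of_le (by positivity) (hl m hm)
  have h2 : ‖m‖ ^ 2 ≤ 1 := by nlinarith [norm_nonneg m]
  refine ⟨h1, div_nonneg (by linarith) h1.le, ?_⟩
  rw [div_le_iff₀ h1, rF_eq]
  have h3 := quad_nonneg h.lA h.lC h.lB (re_sq_le m)
  linarith

theorem LOut.l_bd {a q0 q1 q2 L : ℝ} (h : LOut q0 q1 q2 L) (g : OutL a q0 q1 q2) {m : ℂ}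
    (hm : 1 ≤ ‖m‖) : 0 < rF q0 q1 q2 m ∧ 0 ≤ (‖m‖ ^ 2 - 1) / rF q0 q1 q2 m ∧
      (‖m‖ ^ 2 - 1) / rF q0 q1 q2 m ≤ L := by
  obtain ⟨c, hc, hl⟩ := g.low
  have h1 : 0 < rF q0 q1 q2 m := lt_of_lt_of_le (by positivity) (hl m)
  have h2 : 1 ≤ ‖m‖ ^ 2 := by nlinarith
  refine ⟨h1, div_nonneg (by linarith) h1.le, ?_⟩
  rw [div_le_iff₀ h1, rF_eq]
  have h3 := quad_nonneg h.lA h.lC h.lB (re_sq_le m)
  linarith

/-- the conditions on a field `G` which enter the pointwise inequality -/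
structure Fld (G : ℂ → ℂ) (ka kb p0 p1 p2 la lb q0 q1 q2 : ℝ) : Prop where
  gin : ∀ m : ℂ, ‖m‖ ≤ 1 → ∀ e : ℂ, ‖e‖ = 1 → ‖G m - e‖ ^ 2 ≤ ‖Fq ka kb p0 p1 p2 m - e‖ ^ 2
  gout : ∀ m : ℂ, 1 < ‖m‖ → ∀ e : ℂ, ‖e‖ = 1 → ‖G m - e‖ ^ 2 ≤ ‖Fq la lb q0 q1 q2 m - e‖ ^ 2

theorem fld_Gp (ka kb p0 p1 p2 la lb q0 q1 q2 : ℝ) :
    Fld (Gp ka kb p0 p1 p2 la lb q0 q1 q2) ka kb p0 p1 p2 la lb q0 q1 q2 :=
  ⟨fun _ hm _ he => Pool.Agent.Helper20.EK7.Gp_in hm he,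
    fun _ hm _ he => Pool.Agent.Helper20.EK7.Gp_out hm.le he⟩

theorem fld_Gq (ka kb p0 p1 p2 la lb q0 q1 q2 : ℝ) :
    Fld (Gq ka kb p0 p1 p2 la lb q0 q1 q2) ka kb p0 p1 p2 la lb q0 q1 q2 :=
  ⟨fun m hm e _ => by unfold Gq; rw [if_pos hm],
    fun m hm e _ => by unfold Gq; rw [if_neg (not_le.2 hm)]⟩

namespace DatM

/-- conditions on the data -/
structure Ok (d : DatM) (ka kb p0 p1 p2 la lb q0 q1 q2 : ℝ) (Ln Ld Ln' Ld' : ℤ) : Prop where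
  wf : d.wf = true
  M0 : 0 < d.c.M
  lam0 : 0 ≤ d.c.lam
  fi : SideOk d.c.M d.c.fi 1 ka kb p0 p1 p2
  fo : SideOk d.c.M d.c.fo (-1) la lb q0 q1 q2
  Ld0 : 0 < Ld
  Ld0' : 0 < Ld'
  inL : InL p0 p1 p2
  outL : OutL la q0 q1 q2
  lIn : LIn p0 p1 p2 (Ln / Ld)
  lOut : LOut q0 q1 q2 (Ln' / Ld')

variable {d : DatM} {ka kb p0 p1 p2 la lb q0 q1 q2 : ℝ} {Ln Ld Ln' Ld' : ℤ}

/-- **the pointwise inequality**: for every field `G` at most as far from the unit circle as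
the two pieces -/
theorem Ok.point (o : d.Ok ka kb p0 p1 p2 la lb q0 q1 q2 Ln Ld Ln' Ld')
    (hIn : Side d.c.K Ln Ld d.tIn) (hOut : Side d.c.K Ln' Ld' d.tOut) : ∃ B : ℝ, 0 ≤ B ∧
    ∀ G : ℂ → ℂ, Fld G ka kb p0 p1 p2 la lb q0 q1 q2 →
    ∀ X Y : ℂ, X ≠ 0 → ∀ η ∈ Icc (0:ℝ) (π / 2), ∃ l1 l2 : ℝ, 0 ≤ l1 ∧ l1 ≤ B ∧ 0 ≤ l2 ∧ l2 ≤ B ∧
    d.c.M * ‖G (mX X Y (Real.sin η) (Real.cos η)) - e0 (Real.sin η) (Real.cos η)‖ ^ 2 +
      (l1 * (16 - ‖dA 1 X Y (Real.sin η) (Real.cos η)‖ ^ 2) +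
        l2 * (16 - ‖dA (-1) X Y (Real.sin η) (Real.cos η)‖ ^ 2)) ≤
      d.NT X Y η + (d.c.lam * ‖X - 1‖ ^ 2 + d.c.a2 * ((X.re - 1) ^ 2 - X.im ^ 2)) +
        (d.kb * (1 - X.re) + d.del) +
        d.c.M * (Mq d.c.M d.MI d.MO p0 p1 p2 q0 q1 q2 (mX X Y (Real.sin η) (Real.cos η)) *
          e0 (Real.sin η) (Real.cos η) * (X ^ 2 - 1)).re := by
  obtain ⟨B1, hB1, k1⟩ := Pool.Agent.Helper69.EK6.Dat.Side.apply hIn
  obtain ⟨B2, hB2, k2⟩ := Pool.Agent.Helper69.EK6.Dat.Side.apply hOut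
  have w := wf_iff d o.wf
  refine ⟨max B1 B2, le_max_of_le_left hB1, fun G hG X Y hX η hη => ?_⟩
  have hM : (0:ℝ) < d.c.M := by exact_mod_cast o.M0
  have hMc : (d.c.M : ℂ) ≠ 0 := by exact_mod_cast hM.ne'
  have hD : 0 < Dd d.c.a X.re X.im ^ d.c.K := pow_pos (Dd_pos _ _ _) _
  have he : ‖e0 (Real.sin η) (Real.cos η)‖ = 1 := norm_e0 η
  -- the multiplier
  have hmul : ∀ z : ℂ, (d.c.M : ℝ) * (z / (d.c.M : ℂ) * e0 (Real.sin η) (Real.cos η) *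
      (X ^ 2 - 1)).re = (z * e0 (Real.sin η) (Real.cos η) * (X ^ 2 - 1)).re := by
    intro z
    rw [← re_ofReal_mul]
    congr 1
    push_cast
    field_simp
  obtain ⟨m, hm⟩ : ∃ m : ℂ, m = mX X Y (Real.sin η) (Real.cos η) := ⟨_, rfl⟩
  by_cases h1 : ‖m‖ ≤ 1
  · obtain ⟨d1, d2, d3⟩ := o.lIn.l_bd o.inL h1
    obtain ⟨l, hl⟩ : ∃ l : ℝ, l = (1 - ‖m‖ ^ 2) / rF p0 p1 p2 m := ⟨_, rfl⟩
    have hL : (0:ℝ) < Ld := by exact_mod_cast o.Ld0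
    rw [← hl] at d2 d3
    have hc : (eCon d.c.fi).re (px l η X Y) = 0 := by
      refine SideOk_con o.fi ?_ (by norm_num)
      rw [← hm, hl, div_mul_cancel₀ _ d1.ne']
      push_cast
      ring
    obtain ⟨l1, l2, a1, a2, a3, a4, h5⟩ := k1 X Y l η hη d2 (by
      rw [le_div_iff₀ hL] at d3
      linarith)
    have h6 : d.tIn.re (px l η X Y) = _ := tSide_re w w.mi hX l η hc
    rw [h6] at h5
    have h7 := le_of_mul_le_mul_left h5 hD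
    rw [px_TT l η X Y o.fi.ma o.fi.mb o.fi.maa o.fi.mab o.fi.mbb (by rw [o.fi.sg]; norm_num),
      ← hm, o.fi.sg] at h7
    refine ⟨l1, l2, a1, a2.trans (le_max_left _ _), a3, a4.trans (le_max_left _ _), ?_⟩
    have h8 := mul_le_mul_of_nonneg_left (hG.gin m h1 _ he) hM.le
    unfold Fq at h8
    rw [← hl] at h8
    rw [← hm]
    unfold Mq
    rw [if_pos h1, ← hl, hmul]
    push_cast at h7
    rw [one_mul] at h7
    linarith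
  · have h1' : 1 < ‖m‖ := not_le.1 h1
    obtain ⟨d1, d2, d3⟩ := o.lOut.l_bd o.outL h1'.le
    obtain ⟨l, hl⟩ : ∃ l : ℝ, l = (‖m‖ ^ 2 - 1) / rF q0 q1 q2 m := ⟨_, rfl⟩
    have hL : (0:ℝ) < Ld' := by exact_mod_cast o.Ld0'
    rw [← hl] at d2 d3
    have hc : (eCon d.c.fo).re (px l η X Y) = 0 := by
      refine SideOk_con o.fo ?_ (by norm_num)
      rw [← hm, hl, div_mul_cancel₀ _ d1.ne']
      push_cast
      ring
    obtain ⟨l1, l2, a1, a2, a3, a4, h5⟩ := k2 X Y l η hη d2 (by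
      rw [le_div_iff₀ hL] at d3
      linarith)
    have h6 : d.tOut.re (px l η X Y) = _ := tSide_re w w.mo hX l η hc
    rw [h6] at h5
    have h7 := le_of_mul_le_mul_left h5 hD
    rw [px_TT l η X Y o.fo.ma o.fo.mb o.fo.maa o.fo.mab o.fo.mbb (by rw [o.fo.sg]; norm_num),
      ← hm, o.fo.sg] at h7
    have e : (1 - ‖m‖ ^ 2) / rF q0 q1 q2 m = ((-1 : ℤ) : ℝ) * l := by
      rw [hl]
      push_cast
      ring
    refine ⟨l1, l2, a1, a2.trans (le_max_right _ _), a3, a4.trans (le_max_right _ _), ?_⟩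
    have h8 := mul_le_mul_of_nonneg_left (hG.gout m h1' _ he) hM.le
    unfold Fq at h8
    rw [e] at h8
    rw [← hm]
    unfold Mq
    rw [if_neg h1, ← hl, hmul]
    linarith

/-! ### centre -/

section cen
variable (d)

def cM1 (t : ℕ × Bool × ℤ) : BP :=
  sm2 (Int.mul (Int.mul (-226) (Int.ofNat (2 ^ d.c.h))) (Int.mul t.2.2 (hmv t.1 t.2.1)))
    (mu2 [[0], [1]] (Dn d.c.a d.c.K))

/-- the centre polynomial: `12 · 113 · 2^h · D^K · E_c` with `355/113` for `π` -/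
def cen : BP := sumB d.cM1 (ad2 d.c.cen (mu2 (sm2 (Int.mul 4260 (Int.ofNat (2 ^ d.c.h)))
  [[0], [d.kb]]) (Dn d.c.a d.c.K))) d.HM1

/-- the centre function with `p` for `π` and `k` for `c₁` -/
noncomputable def Ecp (k p : ℝ) (X : ℂ) : ℝ :=
  d.c.Ecp k p X + ((d.HM1.map fun t => - ((t.2.2 : ℝ) * hmv t.1 t.2.1 / 6 * (X.re - 1))).sum +
    d.kb * p * (X.re - 1))

end cen

theorem cen_ev (w : d.Wf) (X : ℂ) : ev2 (X.re - 1) X.im d.cen =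
    1356 * 2 ^ d.c.h * Dd d.c.a X.re X.im ^ d.c.K * d.Ecp d.c.c1 (355 / 113) X := by
  have e2 : ev2 (X.re - 1) X.im [[0], [1]] = X.re - 1 := by
    simp only [ev2, ev1]
    push_cast
    ring
  have e3 : ev2 (X.re - 1) X.im [[0], [d.kb]] = d.kb * (X.re - 1) := by
    simp only [ev2, ev1]
    push_cast
    ring
  have eM : ∀ t ∈ d.HM1, ev2 (X.re - 1) X.im (d.cM1 t) =
      1356 * 2 ^ d.c.h * Dd d.c.a X.re X.im ^ d.c.K *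
        (- ((t.2.2 : ℝ) * hmv t.1 t.2.1 / 6 * (X.re - 1))) := by
    intro t _
    rw [cM1, ev2_sm, ev2_mu, e2, Dn_ev, imul_cast', imul_cast', imul_cast', ofNat_cast']
    push_cast
    ring
  rw [cen, sumB_ev, map_sum_congr _ eM, map_sum_mul, ev2_ad, ev2_mu, ev2_sm, e3, Dn_ev,
    imul_cast', ofNat_cast', Pool.Agent.Helper69.EK6.Dat.cen_ev w.c]
  unfold Ecp
  push_cast
  ring

theorem KT_conj (w : d.Wf) (X Y : ℂ) (k : ℝ) :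
    (d.KT X Y + (d.c.a2 * (π / 2) * ((X.re - 1) ^ 2 - X.im ^ 2) +
      (k - d.kb) * (π / 2) * (X.re - 1))) +
    (d.KT (conj X) (conj Y) + (d.c.a2 * (π / 2) * (((conj X).re - 1) ^ 2 - (conj X).im ^ 2) +
      (k - d.kb) * (π / 2) * ((conj X).re - 1))) = - d.Ecp k π X := by
  have h1 := Pool.Agent.Helper69.EK6.Dat.KT_conj w.c X Y k
  have h2 : ∀ t ∈ d.HM1, (t.2.2 : ℝ) * ((∫ u in (0:ℝ)..(π / 2), trg t.1 t.2.1 u) *
      ((X - 1) ^ 1).re) + (t.2.2 : ℝ) * ((∫ u in (0:ℝ)..(π / 2), trg t.1 t.2.1 u) *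
      ((conj X - 1) ^ 1).re) = (t.2.2 : ℝ) * hmv t.1 t.2.1 / 6 * (X.re - 1) := by
    intro t ht
    have h4 := trg_int t.1 t.2.1 (w.hm t ht).1 (w.hm t ht).2
    rw [pow_one, pow_one, sub_re, sub_re, conj_re, one_re, ← h4]
    ring
  have h3 := map_sum_congr _ h2
  rw [← map_sum_add] at h3
  have h4 : (d.HM1.map fun t => - ((t.2.2 : ℝ) * hmv t.1 t.2.1 / 6 * (X.re - 1))).sum =
      - (d.HM1.map fun t => (t.2.2 : ℝ) * hmv t.1 t.2.1 / 6 * (X.re - 1)).sum := by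
    have := map_sum_mul d.HM1 (fun t => (t.2.2 : ℝ) * hmv t.1 t.2.1 / 6 * (X.re - 1)) (-1)
    simp only [neg_mul, one_mul] at this
    exact this
  unfold KT Ecp
  rw [h4]
  rw [conj_re, conj_im] at h1 ⊢
  linear_combination h1 + h3

theorem Ecp_c1 (k p : ℝ) : ∃ Ex Ey : ℂ → ℝ, C1f (d.Ecp k p) Ex Ey := by
  obtain ⟨A1, A2, hA⟩ := Pool.Agent.Helper69.EK6.Dat.Ecp_c1 (c := d.c) k p
  have hS := c1_sub c1_re (c1_const 1)
  obtain ⟨B1, B2, hB⟩ := c1_list d.HM1 (fun t X => - ((t.2.2 : ℝ) * hmv t.1 t.2.1 / 6 *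
    (X.re - 1))) (fun t =>
      ⟨_, _, c1_congr (c1_mul (c1_const (-((t.2.2 : ℝ) * hmv t.1 t.2.1 / 6))) hS)
        (fun X => by ring) (fun _ => rfl) (fun _ => rfl)⟩)
  refine ⟨_, _, c1_congr (c1_add hA (c1_add hB (c1_mul (c1_const (d.kb * p)) hS)))
    (fun X => ?_) (fun _ => rfl) (fun _ => rfl)⟩
  unfold Ecp
  ring

/-- `355/113` for `π`: the error is dominated by a small change of `c₁`; `ε π = A (p - π)`,
`A ≥ c₁ + kb⁻ + 2 |a₂|` -/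
theorem Ecp_pi {p ε : ℝ} (hp : 0 ≤ p - π)
    (hε : ε * π = (|(d.c.c1 : ℝ) - d.kb| + 2 * |(d.c.a2 : ℝ)|) * (p - π)) {X : ℂ}
    (hX : ‖X‖ ≤ 1) : 0 ≤ d.Ecp (d.c.c1 + ε) π X - d.Ecp d.c.c1 p X := by
  have h4 : d.Ecp (d.c.c1 + ε) π X - d.Ecp d.c.c1 p X =
      (ε * π - (d.c.c1 - d.kb) * (p - π)) * (1 - X.re) +
      d.c.a2 * (p - π) * ((X.re - 1) ^ 2 - X.im ^ 2) := by
    unfold Ecp Pool.Agent.Helper69.EK6.Dat.Ecp
    ring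
  rw [h4, hε]
  have h5 := disc_im hX
  have h6 : -(|(d.c.a2 : ℝ)| * (2 * (1 - X.re))) ≤ d.c.a2 * ((X.re - 1) ^ 2 - X.im ^ 2) := by
    have h7 : |(d.c.a2 : ℝ) * ((X.re - 1) ^ 2 - X.im ^ 2)| ≤
        |(d.c.a2 : ℝ)| * (2 * (1 - X.re)) := by
      rw [abs_mul]
      exact mul_le_mul_of_nonneg_left h5 (abs_nonneg _)
    exact (abs_le.1 h7).1
  have h8 := mul_le_mul_of_nonneg_left h6 hp
  have h9 := le_abs_self ((d.c.c1 : ℝ) - d.kb)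
  have h10 : 0 ≤ 1 - X.re := by
    have := (Complex.abs_re_le_norm X).trans hX
    have := (abs_le.1 this).2
    linarith
  have h11 := mul_nonneg (mul_nonneg (sub_nonneg.2 h9) hp) h10
  linarith

end DatM

end Pool.Agent.Helper71.CK
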