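import Pool.Agent.Helper71.CK.PointG
set_option autoImplicit false
open Complex MeasureTheory Metric Set
open scoped Real ComplexConjugate

/-!
# Project CK: the pointwise inequality with additional multipliers of the relation
-/

namespace Pool.Agent.Helper71.CK

open Pool.Sos71
open Pool.EK71 Pool.Agent.Helper52.EK Pool.Agent.Helper2.EK
open Pool.Agent.Helper69.EK3 hiding qX qY qL Rr c1_Rr c2_Rr Rr_le Dn Dn_ev Rr_conj_even Rr_conj_odd Rs dEta_conj px px_o csE_re EHM mulE eTT eCon Dat.NT Dat.KT px_Con px_TT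
open Pool.Agent.Helper69.EK5 (DQ Dd Dd_pos Dd_low DL e_D qX qY Rr c1_Rr Dn Dn_ev Rr_conj_even Rr_conj_odd Rs Dd_conj)
open Pool.Agent.Helper69.EK6 (px px_o csE_re eCon px_TT Side eDi px_Di)
open Pool.Agent.Helper69.EK6.Dat (SideOk_con)
open Pool.Agent.Helper69.EK3.Dat (SideOk disc_im half_bd)
open Pool.Agent.Helper20.EK7 (InL OutL)

variable {Ln Ld : ℤ}

namespace DatG

/-- the target inside with an additional multiplier of the relation -/
def tInM (g : DatG) (mi : Ex) : Ex := .add g.tIn (.mul mi (eCon g.s.d.c.fi))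
/-- the target outside with an additional multiplier of the relation -/
def tOutM (g : DatG) (mo : Ex) : Ex := .add g.tOut (.mul mo (eCon g.s.d.c.fo))

variable {g : DatG} {ka kb p0 p1 p2 la lb q0 q1 q2 : ℝ} {Ln' Ld' : ℤ}

/-- **the pointwise inequality**, growth class, disc multipliers with growth, additional
multipliers of the relation -/
theorem Ok.pointM (o : g.Ok ka kb p0 p1 p2 la lb q0 q1 q2 Ln Ld Ln' Ld') {mi mo : Ex}
    (hIn : SideG g.s.d.c.K Ln Ld (g.tInM mi)) (hOut : SideG g.s.d.c.K Ln' Ld' (g.tOutM mo)) :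
    ∃ B : ℝ, 0 ≤ B ∧
    ∀ G : ℂ → ℂ, Fld G ka kb p0 p1 p2 la lb q0 q1 q2 →
    ∀ X Y : ℂ, X ≠ 0 → ∀ η ∈ Icc (0:ℝ) (π / 2), Real.sin η * ‖X‖ ≤ 9 →
    ∃ l1 l2 : ℝ, 0 ≤ l1 ∧ l1 ≤ B * (1 + ‖X - 1‖ ^ 2) ∧ 0 ≤ l2 ∧ l2 ≤ B * (1 + ‖X - 1‖ ^ 2) ∧
    g.s.d.c.M * ‖G (mX X Y (Real.sin η) (Real.cos η)) - e0 (Real.sin η) (Real.cos η)‖ ^ 2 +
      (l1 * (16 - ‖dA 1 X Y (Real.sin η) (Real.cos η)‖ ^ 2) +
        l2 * (16 - ‖dA (-1) X Y (Real.sin η) (Real.cos η)‖ ^ 2)) ≤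
      g.NT X Y η + (g.s.d.c.lam * ‖X - 1‖ ^ 2 + g.s.d.c.a2 * ((X.re - 1) ^ 2 - X.im ^ 2)) +
        (g.s.d.kb * (1 - X.re) + g.s.d.del) +
        g.s.d.c.M * (g.s.Mu p0 p1 p2 q0 q1 q2 (mX X Y (Real.sin η) (Real.cos η)) *
          e0 (Real.sin η) (Real.cos η) * (X ^ 2 - (1 + g.s.tn / g.s.td))).re := by
  obtain ⟨B1, hB1, k1⟩ := SideG.apply hIn
  obtain ⟨B2, hB2, k2⟩ := SideG.apply hOut
  have w := wf_iff g o.wf
  refine ⟨max B1 B2, le_max_of_le_left hB1, fun G hG X Y hX η hη h9 => ?_⟩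
  have hM : (0:ℝ) < g.s.d.c.M := by exact_mod_cast o.M0
  have hMc : (g.s.d.c.M : ℂ) ≠ 0 := by exact_mod_cast hM.ne'
  have htd : (g.s.td : ℂ) ≠ 0 := by exact_mod_cast o.td0.ne'
  have hD : 0 < Dd g.s.d.c.a X.re X.im ^ g.s.d.c.K := pow_pos (Dd_pos _ _ _) _
  have he : ‖e0 (Real.sin η) (Real.cos η)‖ = 1 := norm_e0 η
  have h1X : 0 ≤ 1 + ‖X - 1‖ ^ 2 := by positivity
  have m1 : B1 * (1 + ‖X - 1‖ ^ 2) ≤ max B1 B2 * (1 + ‖X - 1‖ ^ 2) :=
    mul_le_mul_of_nonneg_right (le_max_left _ _) h1X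
  have m2 : B2 * (1 + ‖X - 1‖ ^ 2) ≤ max B1 B2 * (1 + ‖X - 1‖ ^ 2) :=
    mul_le_mul_of_nonneg_right (le_max_right _ _) h1X
  -- the multiplier
  have hmul : ∀ z : ℂ, (g.s.d.c.M : ℝ) * (g.s.td * z / (g.s.d.c.M : ℂ) *
      e0 (Real.sin η) (Real.cos η) * (X ^ 2 - (1 + g.s.tn / g.s.td))).re =
      (z * e0 (Real.sin η) (Real.cos η) * (g.s.td * (X ^ 2 - 1) - g.s.tn)).re := by
    intro z
    rw [← re_ofReal_mul]
    congr 1
    push_cast
    field_simp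
    ring
  obtain ⟨m, hm⟩ : ∃ m : ℂ, m = mX X Y (Real.sin η) (Real.cos η) := ⟨_, rfl⟩
  by_cases h1 : ‖m‖ ≤ 1
  · obtain ⟨d1, d2, d3⟩ := o.lIn.l_bd o.inL h1
    obtain ⟨l, hl⟩ : ∃ l : ℝ, l = (1 - ‖m‖ ^ 2) / rF p0 p1 p2 m := ⟨_, rfl⟩
    have hL : (0:ℝ) < Ld := by exact_mod_cast o.Ld0
    rw [← hl] at d2 d3
    have hc : (eCon g.s.d.c.fi).re (px l η X Y) = 0 := by
      refine SideOk_con o.fi ?_ (by norm_num)
      rw [← hm, hl, div_mul_cancel₀ _ d1.ne']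
      push_cast
      ring
    obtain ⟨l1, l2, a1, a2, a3, a4, h5⟩ := k1 X Y l η hη h9 d2 (by
      rw [le_div_iff₀ hL] at d3
      linarith)
    have h6' : (g.tInM mi).re (px l η X Y) = g.tIn.re (px l η X Y) := by
      have e9 : (g.tInM mi).re (px l η X Y) = g.tIn.re (px l η X Y) +
        mi.re (px l η X Y) * (eCon g.s.d.c.fi).re (px l η X Y) := rfl
      rw [hc, mul_zero, add_zero] at e9
      exact e9
    rw [h6'] at h5
    have h6 : g.tIn.re (px l η X Y) = _ := tSide_re w w.d.mi hX l η hc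
    rw [h6] at h5
    have h7 := le_of_mul_le_mul_left h5 hD
    rw [px_TT l η X Y o.fi.ma o.fi.mb o.fi.maa o.fi.mab o.fi.mbb (by rw [o.fi.sg]; norm_num),
      ← hm, o.fi.sg] at h7
    refine ⟨l1, l2, a1, a2.trans m1, a3, a4.trans m1, ?_⟩
    have h8 := mul_le_mul_of_nonneg_left (hG.gin m h1 _ he) hM.le
    unfold Fq at h8
    rw [← hl] at h8
    rw [← hm]
    unfold DatT.Mu Mq
    rw [if_pos h1, ← hl, MS_scl, hmul]
    push_cast at h7
    rw [one_mul] at h7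
    linarith
  · have h1' : 1 < ‖m‖ := not_le.1 h1
    obtain ⟨d1, d2, d3⟩ := o.lOut.l_bd o.outL h1'.le
    obtain ⟨l, hl⟩ : ∃ l : ℝ, l = (‖m‖ ^ 2 - 1) / rF q0 q1 q2 m := ⟨_, rfl⟩
    have hL : (0:ℝ) < Ld' := by exact_mod_cast o.Ld0'
    rw [← hl] at d2 d3
    have hc : (eCon g.s.d.c.fo).re (px l η X Y) = 0 := by
      refine SideOk_con o.fo ?_ (by norm_num)
      rw [← hm, hl, div_mul_cancel₀ _ d1.ne']
      push_cast
      ring
    obtain ⟨l1, l2, a1, a2, a3, a4, h5⟩ := k2 X Y l η hη h9 d2 (by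
      rw [le_div_iff₀ hL] at d3
      linarith)
    have h6' : (g.tOutM mo).re (px l η X Y) = g.tOut.re (px l η X Y) := by
      have e9 : (g.tOutM mo).re (px l η X Y) = g.tOut.re (px l η X Y) +
        mo.re (px l η X Y) * (eCon g.s.d.c.fo).re (px l η X Y) := rfl
      rw [hc, mul_zero, add_zero] at e9
      exact e9
    rw [h6'] at h5
    have h6 : g.tOut.re (px l η X Y) = _ := tSide_re w w.d.mo hX l η hc
    rw [h6] at h5
    have h7 := le_of_mul_le_mul_left h5 hD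
    rw [px_TT l η X Y o.fo.ma o.fo.mb o.fo.maa o.fo.mab o.fo.mbb (by rw [o.fo.sg]; norm_num),
      ← hm, o.fo.sg] at h7
    have e : (1 - ‖m‖ ^ 2) / rF q0 q1 q2 m = ((-1 : ℤ) : ℝ) * l := by
      rw [hl]
      push_cast
      ring
    refine ⟨l1, l2, a1, a2.trans m2, a3, a4.trans m2, ?_⟩
    have h8 := mul_le_mul_of_nonneg_left (hG.gout m h1' _ he) hM.le
    unfold Fq at h8
    rw [e] at h8
    rw [← hm]
    unfold DatT.Mu Mq
    rw [if_neg h1, ← hl, MS_scl, hmul]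
    linarith

end DatG

end Pool.Agent.Helper71.CK
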