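import Pool.Agent.Helper71.CK.Point
set_option autoImplicit false
open Complex MeasureTheory Metric Set
open scoped Real ComplexConjugate

/-!
# Project CK: the multiplier term `Re [Mq(m) e₀ (X² - τ)]`, `τ = 1 + tn/td`

`td · M₀⁻¹ ∑ c lⁿ (conj m)^j` is the multiplier `Mq`; `tn = 0`, `td = 1` is the exact case.
-/

namespace Pool.Agent.Helper71.CK

open Pool.Sos71
open Pool.EK71 Pool.Agent.Helper52.EK Pool.Agent.Helper2.EK
open Pool.Agent.Helper69.EK3 hiding qX qY qL Rr c1_Rr c2_Rr Rr_le Dn Dn_ev Rr_conj_even Rr_conj_odd Rs dEta_conj px px_o csE_re EHM NM KM mulE eTT eCon Dat.NT Dat.KT px_Con px_TT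
open Pool.Agent.Helper69.EK5 (DQ Dd Dd_pos Dd_low Dn Dn_ev)
open Pool.Agent.Helper69.EK6 (px px_o csE_re eCon px_TT Side)
open Pool.Agent.Helper69.EK6.Dat (SideOk_con)
open Pool.Agent.Helper69.EK3.Dat (SideOk disc_im)
open Pool.Agent.Helper69.EK7 (px9 re9 re9_low low CE)

open Pool.Agent.Helper20.CK (cMj re_cMj cAB cDD AB DD v_cAB v_cDD cmj_e0)
open Pool.Agent.Helper20.EK7

/-- `td (X² - 1) - tn` -/
def cXt (tn td : ℤ) : CE := ⟨Ex.bp [[Int.neg tn, 0, Int.neg td], [Int.mul 2 td], [td]],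
  Ex.bp [[0, Int.mul 2 td], [0, Int.mul 2 td]]⟩

/-- `conj m ^ j e₀ (td (X² - 1) - tn)`, `j ≤ 2`, weight 4 -/
def cMt (tn td : ℤ) (j : ℕ) : CE := CE.mul (CE.mul (CE.pow cAB (2 - j)) (CE.pow cDD j)) (cXt tn td)

section val
variable (l η : ℝ) (X Y Z w : ℂ) (tn td : ℤ)

theorem v_cXt : CE.v (px9 l η X Y Z w) (cXt tn td) = td * (X ^ 2 - 1) - tn := by
  have e1 : Int.neg tn = - tn := rfl
  have e2 : Int.neg td = - td := rfl
  have e3 : Int.mul 2 td = 2 * td := rfl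
  apply Complex.ext
  · show ev2 (X.re - 1) X.im [[Int.neg tn, 0, Int.neg td], [Int.mul 2 td], [td]] = _
    rw [e1, e2, e3]
    simp only [ev2, ev1, pow_two, sub_re, mul_re, one_re, intCast_re, intCast_im, sub_im, mul_im,
      one_im]
    push_cast
    ring
  · show ev2 (X.re - 1) X.im [[0, Int.mul 2 td], [0, Int.mul 2 td]] = _
    rw [e3]
    simp only [ev2, ev1, pow_two, sub_re, mul_re, one_re, intCast_re, intCast_im, sub_im, mul_im,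
      one_im]
    push_cast
    ring

theorem v_cMt {j : ℕ} (hj : j ≤ 2) : CE.v (px9 l η X Y Z w) (cMt tn td j) =
    conj (mX X Y (Real.sin η) (Real.cos η)) ^ j * e0 (Real.sin η) (Real.cos η) *
      (td * (X ^ 2 - 1) - tn) := by
  have hSC : Real.sin (η / 2) ^ 2 + Real.cos (η / 2) ^ 2 = 1 := Real.sin_sq_add_cos_sq _
  rw [cMt, CE.v_mul, CE.v_mul, CE.v_pow, CE.v_pow, v_cAB, v_cDD, v_cXt, sin_half η, cos_half η,
    cmj_e0 hSC (P := (Real.sin (η / 2) : ℂ) * (Y / X)) rfl (show j + (2 - j) = 2 by omega)]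

theorem re_cMt {j : ℕ} (hj : j ≤ 2) : (cMt tn td j).r.re (px l η X Y) =
    (conj (mX X Y (Real.sin η) (Real.cos η)) ^ j * e0 (Real.sin η) (Real.cos η) *
      (td * (X ^ 2 - 1) - tn)).re := by
  have h1 : re9 (px9 l η X Y 0 0) (cMt tn td j).r = (conj (mX X Y (Real.sin η) (Real.cos η)) ^ j *
      e0 (Real.sin η) (Real.cos η) * (td * (X ^ 2 - 1) - tn)).re := by
    rw [← v_cMt l η X Y 0 0 tn td hj]
    rfl
  have h2 : low (cMt tn td j).r = true := by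
    interval_cases j <;> rfl
  rw [re9_low _ _ h2] at h1
  exact h1

/-- `c lⁿ Re [(conj m)^j e₀ (td (X² - 1) - tn)]`, times `D^K` -/
def EMt (tn td : ℤ) (a : DQ) (K h : ℕ) (t : ℕ × ℕ × ℤ) : Ex :=
  Ex.mul (Ex.mul (Ex.pow (Ex.va 0) t.1) (Ex.sc t.2.2 (cMt tn td t.2.1).r))
    (Ex.mul (Ex.pow eo (h - 2)) (Ex.bp (Dn a K)))

theorem EMt_re (a : DQ) (K h : ℕ) (t : ℕ × ℕ × ℤ) (ht : t.2.1 ≤ 2) :
    (EMt tn td a K h t).re (px l η X Y) = Dd a X.re X.im ^ K *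
      ((t.2.2 : ℂ) * ((l : ℂ) ^ t.1 * conj (mX X Y (Real.sin η) (Real.cos η)) ^ t.2.1) *
        e0 (Real.sin η) (Real.cos η) * (td * (X ^ 2 - 1) - tn)).re := by
  have h1 := re_cMt l η X Y tn td ht
  have e : (EMt tn td a K h t).re (px l η X Y) = l ^ t.1 * ((t.2.2 : ℝ) *
      (cMt tn td t.2.1).r.re (px l η X Y)) * (eo.re (px l η X Y) ^ (h - 2) *
        ev2 (X.re - 1) X.im (Dn a K)) := rfl
  rw [e, px_o, one_pow, Dn_ev, h1]
  have e2 : (t.2.2 : ℂ) * ((l : ℂ) ^ t.1 * conj (mX X Y (Real.sin η) (Real.cos η)) ^ t.2.1) *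
      e0 (Real.sin η) (Real.cos η) * (td * (X ^ 2 - 1) - tn) = ((t.2.2 * l ^ t.1 : ℝ) : ℂ) *
      (conj (mX X Y (Real.sin η) (Real.cos η)) ^ t.2.1 * e0 (Real.sin η) (Real.cos η) *
        (td * (X ^ 2 - 1) - tn)) := by
    push_cast
    ring
  rw [e2, re_ofReal_mul]
  ring

end val

/-- multiplication of the coefficients by `td` -/
def scl (td : ℤ) (L : List (ℕ × ℕ × ℤ)) : List (ℕ × ℕ × ℤ) :=
  L.map fun t => (t.1, t.2.1, Int.mul td t.2.2)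

theorem MS_scl (td : ℤ) (L : List (ℕ × ℕ × ℤ)) (l : ℝ) (m : ℂ) :
    MS (scl td L) l m = td * MS L l m := by
  unfold MS scl
  induction L with
  | nil => simp
  | cons t L ih =>
    have e : Int.mul td t.2.2 = td * t.2.2 := rfl
    rw [List.map_cons, List.map_cons, List.sum_cons, ih, List.map_cons, List.sum_cons, e]
    push_cast
    ring

structure DatT where
  d : DatM
  tn : ℤ
  td : ℤ

namespace DatT
variable (s : DatT)

def tSide (f : Sd) (L : List (ℕ × ℕ × ℤ)) : Ex :=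
  Ex.add (s.d.c.tSide f) (sumE (EMt s.tn s.td s.d.c.a s.d.c.K s.d.c.h) s.d.tX L)

/-- the target inside -/
def tIn : Ex := s.tSide s.d.c.fi s.d.MI
/-- the target outside -/
def tOut : Ex := s.tSide s.d.c.fo s.d.MO

variable {s}

theorem mt_re {L : List (ℕ × ℕ × ℤ)} (hL : ∀ t ∈ L, t.2.1 ≤ 2) (l η : ℝ) (X Y : ℂ) :
    (L.map fun t => (EMt s.tn s.td s.d.c.a s.d.c.K s.d.c.h t).re (px l η X Y)).sum =
      Dd s.d.c.a X.re X.im ^ s.d.c.K * (MS L l (mX X Y (Real.sin η) (Real.cos η)) *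
        e0 (Real.sin η) (Real.cos η) * (s.td * (X ^ 2 - 1) - s.tn)).re := by
  rw [map_sum_congr L fun t ht => EMt_re l η X Y s.tn s.td s.d.c.a s.d.c.K s.d.c.h t (hL t ht),
    map_sum_mul]
  congr 1
  unfold MS
  induction L with
  | nil => simp
  | cons t L ih =>
    rw [List.map_cons, List.sum_cons, ih fun r hr => hL r (List.mem_cons_of_mem _ hr),
      List.map_cons, List.sum_cons, add_mul, add_mul, add_re]

theorem tSide_re (w : s.d.Wf) {f : Sd} {L : List (ℕ × ℕ × ℤ)} (hL : ∀ t ∈ L, t.2.1 ≤ 2)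
    {X Y : ℂ} (hX : X ≠ 0) (l η : ℝ) (h : (eCon f).re (px l η X Y) = 0) :
    (s.tSide f L).re (px l η X Y) = Dd s.d.c.a X.re X.im ^ s.d.c.K *
      (s.d.NT X Y η + (s.d.c.lam * ‖X - 1‖ ^ 2 + s.d.c.a2 * ((X.re - 1) ^ 2 - X.im ^ 2)) +
        (s.d.kb * (1 - X.re) + s.d.del) +
        (MS L l (mX X Y (Real.sin η) (Real.cos η)) * e0 (Real.sin η) (Real.cos η) *
          (s.td * (X ^ 2 - 1) - s.tn)).re -
        (Pool.Agent.Helper69.EK6.eTT s.d.c.M f).re (px l η X Y)) := by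
  have e : (s.tSide f L).re (px l η X Y) = (s.d.c.tSide f).re (px l η X Y) +
      (sumE (EMt s.tn s.td s.d.c.a s.d.c.K s.d.c.h) s.d.tX L).re (px l η X Y) := rfl
  rw [e, sumE_re, DatM.tX_re, mt_re hL,
    Pool.Agent.Helper69.EK6.Dat.tSide_re w.c f hX l η h]
  unfold DatM.NT
  ring

/-- conditions on the data -/
structure Ok (s : DatT) (ka kb p0 p1 p2 la lb q0 q1 q2 : ℝ) (Ln Ld Ln' Ld' : ℤ) : Prop where
  wf : s.d.wf = true
  M0 : 0 < s.d.c.M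
  td0 : 0 < s.td
  lam0 : 0 ≤ s.d.c.lam
  fi : SideOk s.d.c.M s.d.c.fi 1 ka kb p0 p1 p2
  fo : SideOk s.d.c.M s.d.c.fo (-1) la lb q0 q1 q2
  Ld0 : 0 < Ld
  Ld0' : 0 < Ld'
  inL : InL p0 p1 p2
  outL : OutL la q0 q1 q2
  lIn : LIn p0 p1 p2 (Ln / Ld)
  lOut : LOut q0 q1 q2 (Ln' / Ld')

/-- the multiplier of the data -/
noncomputable def Mu (s : DatT) (p0 p1 p2 q0 q1 q2 : ℝ) (m : ℂ) : ℂ :=
  Mq s.d.c.M (scl s.td s.d.MI) (scl s.td s.d.MO) p0 p1 p2 q0 q1 q2 m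

variable {ka kb p0 p1 p2 la lb q0 q1 q2 : ℝ} {Ln Ld Ln' Ld' : ℤ}

/-- **the pointwise inequality** with `τ = 1 + tn/td` -/
theorem Ok.point (o : s.Ok ka kb p0 p1 p2 la lb q0 q1 q2 Ln Ld Ln' Ld')
    (hIn : Side s.d.c.K Ln Ld s.tIn) (hOut : Side s.d.c.K Ln' Ld' s.tOut) : ∃ B : ℝ, 0 ≤ B ∧
    ∀ G : ℂ → ℂ, Fld G ka kb p0 p1 p2 la lb q0 q1 q2 →
    ∀ X Y : ℂ, X ≠ 0 → ∀ η ∈ Icc (0:ℝ) (π / 2), ∃ l1 l2 : ℝ, 0 ≤ l1 ∧ l1 ≤ B ∧ 0 ≤ l2 ∧ l2 ≤ B ∧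
    s.d.c.M * ‖G (mX X Y (Real.sin η) (Real.cos η)) - e0 (Real.sin η) (Real.cos η)‖ ^ 2 +
      (l1 * (16 - ‖dA 1 X Y (Real.sin η) (Real.cos η)‖ ^ 2) +
        l2 * (16 - ‖dA (-1) X Y (Real.sin η) (Real.cos η)‖ ^ 2)) ≤
      s.d.NT X Y η + (s.d.c.lam * ‖X - 1‖ ^ 2 + s.d.c.a2 * ((X.re - 1) ^ 2 - X.im ^ 2)) +
        (s.d.kb * (1 - X.re) + s.d.del) +
        s.d.c.M * (s.Mu p0 p1 p2 q0 q1 q2 (mX X Y (Real.sin η) (Real.cos η)) *
          e0 (Real.sin η) (Real.cos η) * (X ^ 2 - (1 + s.tn / s.td))).re := by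
  obtain ⟨B1, hB1, k1⟩ := Pool.Agent.Helper69.EK6.Dat.Side.apply hIn
  obtain ⟨B2, hB2, k2⟩ := Pool.Agent.Helper69.EK6.Dat.Side.apply hOut
  have w := DatM.wf_iff s.d o.wf
  refine ⟨max B1 B2, le_max_of_le_left hB1, fun G hG X Y hX η hη => ?_⟩
  have hM : (0:ℝ) < s.d.c.M := by exact_mod_cast o.M0
  have hMc : (s.d.c.M : ℂ) ≠ 0 := by exact_mod_cast hM.ne'
  have htd : (s.td : ℂ) ≠ 0 := by exact_mod_cast o.td0.ne'
  have hD : 0 < Dd s.d.c.a X.re X.im ^ s.d.c.K := pow_pos (Dd_pos _ _ _) _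
  have he : ‖e0 (Real.sin η) (Real.cos η)‖ = 1 := norm_e0 η
  -- the multiplier
  have hmul : ∀ z : ℂ, (s.d.c.M : ℝ) * (s.td * z / (s.d.c.M : ℂ) * e0 (Real.sin η) (Real.cos η) *
      (X ^ 2 - (1 + s.tn / s.td))).re = (z * e0 (Real.sin η) (Real.cos η) *
        (s.td * (X ^ 2 - 1) - s.tn)).re := by
    intro z
    rw [← re_ofReal_mul]
    congr 1
    push_cast
    field_simp
    ring
  obtain ⟨m, hm⟩ : ∃ m : ℂ, m = mX X Y (Real.sin η) (Real.cos η) := ⟨_, rfl⟩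
  by_cases h1 : ‖m‖ ≤ 1
  · obtain ⟨d1, d2, d3⟩ := o.lIn.l_bd o.inL h1
    obtain ⟨l, hl⟩ : ∃ l : ℝ, l = (1 - ‖m‖ ^ 2) / rF p0 p1 p2 m := ⟨_, rfl⟩
    have hL : (0:ℝ) < Ld := by exact_mod_cast o.Ld0
    rw [← hl] at d2 d3
    have hc : (eCon s.d.c.fi).re (px l η X Y) = 0 := by
      refine SideOk_con o.fi ?_ (by norm_num)
      rw [← hm, hl, div_mul_cancel₀ _ d1.ne']
      push_cast
      ring
    obtain ⟨l1, l2, a1, a2, a3, a4, h5⟩ := k1 X Y l η hη d2 (by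
      rw [le_div_iff₀ hL] at d3
      linarith)
    have h6 : s.tIn.re (px l η X Y) = _ := tSide_re w w.mi hX l η hc
    rw [h6] at h5
    have h7 := le_of_mul_le_mul_left h5 hD
    rw [px_TT l η X Y o.fi.ma o.fi.mb o.fi.maa o.fi.mab o.fi.mbb (by rw [o.fi.sg]; norm_num),
      ← hm, o.fi.sg] at h7
    refine ⟨l1, l2, a1, a2.trans (le_max_left _ _), a3, a4.trans (le_max_left _ _), ?_⟩
    have h8 := mul_le_mul_of_nonneg_left (hG.gin m h1 _ he) hM.le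
    unfold Fq at h8
    rw [← hl] at h8
    rw [← hm]
    unfold Mu Mq
    rw [if_pos h1, ← hl, MS_scl, hmul]
    push_cast at h7
    rw [one_mul] at h7
    linarith
  · have h1' : 1 < ‖m‖ := not_le.1 h1
    obtain ⟨d1, d2, d3⟩ := o.lOut.l_bd o.outL h1'.le
    obtain ⟨l, hl⟩ : ∃ l : ℝ, l = (‖m‖ ^ 2 - 1) / rF q0 q1 q2 m := ⟨_, rfl⟩
    have hL : (0:ℝ) < Ld' := by exact_mod_cast o.Ld0'
    rw [← hl] at d2 d3
    have hc : (eCon s.d.c.fo).re (px l η X Y) = 0 := by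
      refine SideOk_con o.fo ?_ (by norm_num)
      rw [← hm, hl, div_mul_cancel₀ _ d1.ne']
      push_cast
      ring
    obtain ⟨l1, l2, a1, a2, a3, a4, h5⟩ := k2 X Y l η hη d2 (by
      rw [le_div_iff₀ hL] at d3
      linarith)
    have h6 : s.tOut.re (px l η X Y) = _ := tSide_re w w.mo hX l η hc
    rw [h6] at h5
    have h7 := le_of_mul_le_mul_left h5 hD
    rw [px_TT l η X Y o.fo.ma o.fo.mb o.fo.maa o.fo.mab o.fo.mbb (by rw [o.fo.sg]; norm_num),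
      ← hm, o.fo.sg] at h7
    have e : (1 - ‖m‖ ^ 2) / rF q0 q1 q2 m = ((-1 : ℤ) : ℝ) * l := by
      rw [hl]
      push_cast
      ring
    refine ⟨l1, l2, a1, a2.trans (le_max_right _ _), a3, a4.trans (le_max_right _ _), ?_⟩
    have h8 := mul_le_mul_of_nonneg_left (hG.gout m h1' _ he) hM.le
    unfold Fq at h8
    rw [e] at h8
    rw [← hm]
    unfold Mu Mq
    rw [if_neg h1, ← hl, MS_scl, hmul]
    linarith

theorem Mu_conj (m : ℂ) : s.Mu p0 p1 p2 q0 q1 q2 (conj m) = conj (s.Mu p0 p1 p2 q0 q1 q2 m) :=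
  Mq_conj _ _ _ _ _ _ _ _ _ _

end DatT

end Pool.Agent.Helper71.CK
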