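import Pool.Agent.Helper65.CK.KDataG
import Pool.Agent.Helper71.CK.PointM
set_option autoImplicit false
open Complex MeasureTheory Metric Set
open scoped Real ComplexConjugate

/-!
# Project CK: from the data of a certificate to the bound for one target, disc multipliers with
growth and additional multipliers of the relation
-/

namespace Pool.Agent.Helper71.CK

open Pool.Agent.Helper39.Area Pool.Agent.Helper52.EK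
open Pool.Agent.Helper69.CK Pool.Agent.Helper84.CK Pool.Agent.Helper71.CK Pool.Agent.Helper65.CK
open Pool.Agent.Helper84.CB (RegQ CenQP Q_lowQ bq CenE line_hd q_hd cenQP_Xf)
open Pool.Agent.Helper69.EK3 (NiceH RectH pt_mem_RectH)
open Pool.Agent.Helper20.CK (Zeq Mq_lip)
open Pool.Agent.Helper2.EK (c1_sub)

variable {g : DatG}

/-- **the bound for one target from the data** -/
theorem K_dataM {ka kb p0 p1 p2 la lb q0 q1 q2 : ℝ} {Ln Ld Ln' Ld' : ℤ} {mi mo : Pool.Sos71.Ex}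
    (o : g.Ok ka kb p0 p1 p2 la lb q0 q1 q2 Ln Ld Ln' Ld')
    (hIn : Pool.Sos71.SideG g.s.d.c.K Ln Ld (g.tInM mi))
    (hOut : Pool.Sos71.SideG g.s.d.c.K Ln' Ld' (g.tOutM mo))
    (hz : Zeq g.s.d.MI g.s.d.MO) (c10 : 0 ≤ g.s.d.c.c1) (del0 : 0 ≤ g.s.d.del)
    (hC : CenE (g.Ecp g.s.d.c.c1 (355 / 113))) {κ : ℝ}
    (hκ : (g.s.d.c.lam : ℝ) + g.s.d.c.c1 + (|(g.s.d.c.c1 : ℝ) - g.s.d.kb| +
      2 * |(g.s.d.c.a2 : ℝ)|) / 10 ^ 7 < 2 * κ * g.s.d.c.M)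
    {G : ℂ → ℂ} {L : ℝ} (hG : GLip G L) (hGc : ∀ m, G (conj m) = conj (G m))
    (hF : Fld G ka kb p0 p1 p2 la lb q0 q1 q2) :
    ∃ e C V₀ a₀ : ℝ, 0 < e ∧ 0 ≤ C ∧ 0 < V₀ ∧ a₀ < 1 ∧
      ∀ (β : ℂ → ℂ) (R a V : ℝ) (Ω Ω₁ Ω₂ : ℝ → ℝ → ℝ), ExtR β R → a₀ < a → a < 1 →
      0 ≤ V → V ≤ V₀ → WtF (Real.log (tau a) + 1) (-1) V Ω Ω₁ Ω₂ →
      Kf (wf G β) 1 (-1) (Real.log a) +
          e * II (Real.log (tau a) + 1) (-1) (fun ξ η => ‖Xf β a (pt ξ η) - 1‖ ^ 2) ≤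
        κ * Real.log (‖N β a‖ / (1 - a ^ 2)) +
          π⁻¹ * II (Real.log (tau a) + 1) (-1) (fun ξ η => Ω ξ η *
            Mt (g.s.Mu p0 p1 p2 q0 q1 q2) (1 + g.s.tn / g.s.td) (Xf β a) ξ η) +
          4 * π⁻¹ * II (Real.log (tau a) + 1) (-1) (fun ξ η => 1 - Ω ξ η) +
          (g.s.d.del : ℝ) / g.s.d.c.M * (-1 - (Real.log (tau a) + 1)) +
          C * (1 + V * (-1 - (Real.log (tau a) + 1))) := by
  refine K_pwG (DatG.wf_iff g o.wf) o.M0 o.lam0 c10 del0 hG hGc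
    (Mq_cont o.inL o.outL (Zeq_scl hz) _) (fun m => DatT.Mu_conj m) ?_ hC hκ
  obtain ⟨B, hB, h⟩ := o.pointM hIn hOut
  refine ⟨B, hB, fun X Y hX η hη h9 => ?_⟩
  obtain ⟨l1, l2, a1, a2, a3, a4, h1⟩ := h G hF X Y hX η hη h9
  refine ⟨l1, l2, a1, a2, a3, a4, ?_⟩
  push_cast
  exact h1

/-- the field `Gp` -/
theorem K_data_GpM {ka kb p0 p1 p2 la lb q0 q1 q2 : ℝ} {Ln Ld Ln' Ld' : ℤ} {mi mo : Pool.Sos71.Ex}
    (o : g.Ok ka kb p0 p1 p2 la lb q0 q1 q2 Ln Ld Ln' Ld')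
    (hIn : Pool.Sos71.SideG g.s.d.c.K Ln Ld (g.tInM mi))
    (hOut : Pool.Sos71.SideG g.s.d.c.K Ln' Ld' (g.tOutM mo))
    (hz : Zeq g.s.d.MI g.s.d.MO) (c10 : 0 ≤ g.s.d.c.c1) (del0 : 0 ≤ g.s.d.del)
    (hC : CenE (g.Ecp g.s.d.c.c1 (355 / 113))) {κ : ℝ}
    (hκ : (g.s.d.c.lam : ℝ) + g.s.d.c.c1 + (|(g.s.d.c.c1 : ℝ) - g.s.d.kb| +
      2 * |(g.s.d.c.a2 : ℝ)|) / 10 ^ 7 < 2 * κ * g.s.d.c.M) :
    ∃ e C V₀ a₀ : ℝ, 0 < e ∧ 0 ≤ C ∧ 0 < V₀ ∧ a₀ < 1 ∧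
      ∀ (β : ℂ → ℂ) (R a V : ℝ) (Ω Ω₁ Ω₂ : ℝ → ℝ → ℝ), ExtR β R → a₀ < a → a < 1 →
      0 ≤ V → V ≤ V₀ → WtF (Real.log (tau a) + 1) (-1) V Ω Ω₁ Ω₂ →
      Kf (wf (Pool.Agent.Helper20.EK7.Gp ka kb p0 p1 p2 la lb q0 q1 q2) β) 1 (-1) (Real.log a) +
          e * II (Real.log (tau a) + 1) (-1) (fun ξ η => ‖Xf β a (pt ξ η) - 1‖ ^ 2) ≤
        κ * Real.log (‖N β a‖ / (1 - a ^ 2)) +
          π⁻¹ * II (Real.log (tau a) + 1) (-1) (fun ξ η => Ω ξ η *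
            Mt (g.s.Mu p0 p1 p2 q0 q1 q2) (1 + g.s.tn / g.s.td) (Xf β a) ξ η) +
          4 * π⁻¹ * II (Real.log (tau a) + 1) (-1) (fun ξ η => 1 - Ω ξ η) +
          (g.s.d.del : ℝ) / g.s.d.c.M * (-1 - (Real.log (tau a) + 1)) +
          C * (1 + V * (-1 - (Real.log (tau a) + 1))) := by
  obtain ⟨CG, hGl⟩ := Pool.Agent.Helper20.EK7.Gp_glip (a := ka) (b := kb) (b' := lb) o.inL o.outL
  exact K_dataM o hIn hOut hz c10 del0 hC hκ hGl (Pool.Agent.Helper20.EK7.Gp_conj _ _ _ _ _ _ _ _ _ _)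
    (fld_Gp _ _ _ _ _ _ _ _ _ _)

end Pool.Agent.Helper71.CK
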