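import Pool.Agent.Helper71.Sos.Fast
import Pool.Agent.Helper71.CK.SideH
set_option autoImplicit false

/-!
Certificates in several parts: an explicit polynomial in place of the target, and sums.
-/

namespace Pool.Sos71

/-- two expressions with the same values -/
theorem re_eq_of {c : Cert} (h : c.checkF = true) {t e : Ex} (hb : c.blocks = [])
    (ht : c.target = .add t (.sc (-1) e)) (x : Pnt) : t.re x = e.re x := by
  have h1 := Cert.soundW (Cert.checkW_of_F h) x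
  have h2 : (0 : ℝ) < c.s := by
    simp only [Cert.checkF, Bool.and_eq_true, Nat.blt_eq] at h
    exact_mod_cast h.1.1.1.2
  rw [hb, ht] at h1
  have h3 : (c.s : ℝ) * (t.re x + ((-1 : ℤ) : ℝ) * e.re x) = 0 := h1
  have h4 := (mul_eq_zero.1 h3).resolve_left h2.ne'
  push_cast at h4
  linarith

variable {K : ℕ} {Ln Ld : ℤ} {t u : Ex}

theorem SideH.congr (h : ∀ x : Pnt, t.re x = u.re x) (hu : SideH K Ln Ld u) :
    SideH K Ln Ld t := by
  obtain ⟨B, hB⟩ := hu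
  refine ⟨B, fun x h1 h2 h3 h4 h5 h6 => ?_⟩
  obtain ⟨q1, q2, a1, a2, a3, a4, a5⟩ := hB x h1 h2 h3 h4 h5 h6
  exact ⟨q1, q2, a1, a2, a3, a4, by rw [h x]; exact a5⟩

theorem SideH.add (ht : SideH K Ln Ld t) (hu : SideH K Ln Ld u) :
    SideH K Ln Ld (.add t u) := by
  obtain ⟨B, hB⟩ := ht
  obtain ⟨C, hC⟩ := hu
  refine ⟨B + C, fun x h1 h2 h3 h4 h5 h6 => ?_⟩
  obtain ⟨q1, q2, a1, a2, a3, a4, a5⟩ := hB x h1 h2 h3 h4 h5 h6
  obtain ⟨r1, r2, b1, b2, b3, b4, b5⟩ := hC x h1 h2 h3 h4 h5 h6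
  refine ⟨q1 + r1, q2 + r2, add_nonneg a1 b1, ?_, add_nonneg a3 b3, ?_, ?_⟩
  · rw [add_mul]; linarith
  · rw [add_mul]; linarith
  · show _ ≤ t.re x + u.re x
    rw [add_mul, add_mul]; linarith

theorem SideH.sc {z : ℤ} (hz : 0 < z) (h : SideH K Ln Ld (.sc z t)) : SideH K Ln Ld t := by
  obtain ⟨B, hB⟩ := h
  have hz' : (0 : ℝ) < z := by exact_mod_cast hz
  refine ⟨B / z, fun x h1 h2 h3 h4 h5 h6 => ?_⟩
  obtain ⟨q1, q2, a1, a2, a3, a4, a5⟩ := hB x h1 h2 h3 h4 h5 h6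
  refine ⟨q1 / z, q2 / z, div_nonneg a1 hz'.le, ?_, div_nonneg a3 hz'.le, ?_, ?_⟩
  · rw [div_mul_eq_mul_div]
    exact div_le_div_of_nonneg_right a2 hz'.le
  · rw [div_mul_eq_mul_div]
    exact div_le_div_of_nonneg_right a4 hz'.le
  · have h7 : (Ex.sc z t).re x = z * t.re x := rfl
    rw [h7] at a5
    have h8 : q1 / z * (Pool.Agent.Helper69.EK6.eDi 1).re x +
        q2 / z * (Pool.Agent.Helper69.EK6.eDi (-1)).re x =
        (q1 * (Pool.Agent.Helper69.EK6.eDi 1).re x +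
          q2 * (Pool.Agent.Helper69.EK6.eDi (-1)).re x) / z := by
      field_simp
    rw [h8, div_le_iff₀ hz']
    linarith

/-- what is left of `s t` after the part `u` -/
def rst (s : ℤ) (t u : Ex) : Ex := .add (.sc s t) (.sc (-1) u)

theorem SideH.rest {s : ℤ} (hs : 0 < s) (hu : SideH K Ln Ld u) (hr : SideH K Ln Ld (rst s t u)) :
    SideH K Ln Ld t := by
  refine SideH.sc hs (SideH.congr (fun x => ?_) (hu.add hr))
  show (s : ℝ) * t.re x = u.re x + ((s : ℝ) * t.re x + ((-1 : ℤ) : ℝ) * u.re x)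
  push_cast
  ring

end Pool.Sos71
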