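import Pool.Agent.Helper71.Sos.Pk
import Pool.Agent.Helper71.CK.SideH
set_option autoImplicit false

/-!
Certificates of one side in several parts, with packed polynomials.
-/

namespace Pool.Sos71

open Pool.Agent.Helper69.EK6 (eDi)

/-- `SideH` for a function -/
def SideF (K : ℕ) (Ln Ld : ℤ) (φ : Pnt → ℝ) : Prop :=
  ∃ B : ℝ, ∀ x : Pnt, 0 ≤ x.b → x.b ≤ x.c → x.b ^ 2 + x.c ^ 2 = 1 → 0 ≤ x.a →
    (Ld : ℝ) * x.a ≤ Ln → DomH x → ∃ q1 q2 : ℝ, 0 ≤ q1 ∧
      q1 ≤ B * (1 + x.f ^ 2 + x.g ^ 2) ^ (K + 1) ∧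
      0 ≤ q2 ∧ q2 ≤ B * (1 + x.f ^ 2 + x.g ^ 2) ^ (K + 1) ∧
      q1 * (eDi 1).re x + q2 * (eDi (-1)).re x ≤ φ x

variable {K : ℕ} {Ln Ld : ℤ}

theorem SideF.side {t : Ex} (h : SideF K Ln Ld fun x => t.re x) : SideH K Ln Ld t := h

theorem SideF.congr {φ ψ : Pnt → ℝ} (h : ∀ x, φ x = ψ x) (hu : SideF K Ln Ld ψ) :
    SideF K Ln Ld φ := by
  have : φ = ψ := funext h
  rw [this]
  exact hu

theorem SideF.zero : SideF K Ln Ld fun _ => 0 :=
  ⟨0, fun x _ _ _ _ _ _ => ⟨0, 0, le_rfl, by simp, le_rfl, by simp, by simp⟩⟩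

theorem SideF.add {φ ψ : Pnt → ℝ} (ht : SideF K Ln Ld φ) (hu : SideF K Ln Ld ψ) :
    SideF K Ln Ld fun x => φ x + ψ x := by
  obtain ⟨B, hB⟩ := ht
  obtain ⟨C, hC⟩ := hu
  refine ⟨B + C, fun x h1 h2 h3 h4 h5 h6 => ?_⟩
  obtain ⟨q1, q2, a1, a2, a3, a4, a5⟩ := hB x h1 h2 h3 h4 h5 h6
  obtain ⟨r1, r2, b1, b2, b3, b4, b5⟩ := hC x h1 h2 h3 h4 h5 h6
  refine ⟨q1 + r1, q2 + r2, add_nonneg a1 b1, ?_, add_nonneg a3 b3, ?_, ?_⟩
  · rw [add_mul]; linarith
  · rw [add_mul]; linarith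
  · rw [add_mul, add_mul]; linarith

theorem SideF.div {φ : Pnt → ℝ} {z : ℝ} (hz : 0 < z) (h : SideF K Ln Ld fun x => z * φ x) :
    SideF K Ln Ld φ := by
  obtain ⟨B, hB⟩ := h
  refine ⟨B / z, fun x h1 h2 h3 h4 h5 h6 => ?_⟩
  obtain ⟨q1, q2, a1, a2, a3, a4, a5⟩ := hB x h1 h2 h3 h4 h5 h6
  refine ⟨q1 / z, q2 / z, div_nonneg a1 hz.le, ?_, div_nonneg a3 hz.le, ?_, ?_⟩
  · rw [div_mul_eq_mul_div]
    exact div_le_div_of_nonneg_right a2 hz.le
  · rw [div_mul_eq_mul_div]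
    exact div_le_div_of_nonneg_right a4 hz.le
  · have h8 : q1 / z * (eDi 1).re x + q2 / z * (eDi (-1)).re x =
        (q1 * (eDi 1).re x + q2 * (eDi (-1)).re x) / z := by
      field_simp
    rw [h8, div_le_iff₀ hz]
    linarith

theorem SideF.brs {D : CertK} (h : D.check = true) (hd : 0 < Ld)
    (hg : ∀ b ∈ D.blocks, GoodH K Ln Ld b) : SideF K Ln Ld fun x => Pool.Sos71.brs x D.blocks := by
  have hk : bokW D.k D.r D.N D.blocks = true := by
    simp only [CertK.check, Bool.and_eq_true] at h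
    exact h.1.1.2
  obtain ⟨B, hB, hb⟩ := brs_sideH hd D.blocks hk hg
  refine ⟨B, fun x h1 h2 h3 h4 h5 h6 => ?_⟩
  exact hb x ⟨h1, h2, h3, h4, h5⟩ h6

/-- a part of the certificate -/
theorem SideF.part {D : CertK} (h : D.check = true) (hd : 0 < Ld)
    (hg : ∀ b ∈ D.blocks, GoodH K Ln Ld b) {P : Pk} (h1 : D.tg = []) (h2 : D.plus = [P])
    (h3 : D.minus = []) : SideF K Ln Ld fun x => P.re x := by
  refine SideF.congr (fun x => ?_) (SideF.brs h hd hg)
  have := CertK.sound h x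
  rw [h1, h2, h3] at this
  have e : (0 : ℝ) + (P.re x + 0) = Pool.Sos71.brs x D.blocks + 0 := this
  linarith

theorem SideF.pre {l : List Pk} (h : ∀ P ∈ l, SideF K Ln Ld fun x => P.re x) :
    SideF K Ln Ld fun x => Pool.Sos71.pre x l := by
  induction l with
  | nil => exact SideF.zero
  | cons P l ih =>
    exact SideF.add (h P List.mem_cons_self) (ih fun Q hQ => h Q (List.mem_cons_of_mem _ hQ))

/-- the last part -/
theorem SideF.last {D : CertK} (h : D.check = true) (hd : 0 < Ld)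
    (hg : ∀ b ∈ D.blocks, GoodH K Ln Ld b) {s : ℕ} {t : Ex} (hs : 0 < s)
    (h1 : D.tg = [(s, t)]) (h2 : D.plus = [])
    (h3 : ∀ P ∈ D.minus, SideF K Ln Ld fun x => P.re x) : SideH K Ln Ld t := by
  have hs' : (0 : ℝ) < s := by exact_mod_cast hs
  refine SideF.side (SideF.div hs' (SideF.congr (fun x => ?_)
    ((SideF.brs h hd hg).add (SideF.pre h3))))
  have := CertK.sound h x
  rw [h1, h2] at this
  have e : ((s : ℝ) * t.re x + 0) + 0 =
    Pool.Sos71.brs x D.blocks + Pool.Sos71.pre x D.minus := this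
  linarith

/-- the last part, for a packed polynomial -/
theorem SideF.lastP {D : CertK} (h : D.check = true) (hd : 0 < Ld)
    (hg : ∀ b ∈ D.blocks, GoodH K Ln Ld b) {P : Pk} (h1 : D.tg = []) (h2 : D.plus = [P])
    (h3 : ∀ P ∈ D.minus, SideF K Ln Ld fun x => P.re x) : SideF K Ln Ld fun x => P.re x := by
  refine SideF.congr (fun x => ?_) ((SideF.brs h hd hg).add (SideF.pre h3))
  have := CertK.sound h x
  rw [h1, h2] at this
  have e : (0 : ℝ) + (P.re x + 0) =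
    Pool.Sos71.brs x D.blocks + Pool.Sos71.pre x D.minus := this
  linarith

/-- the target is a packed polynomial, up to a factor -/
theorem SideF.target {D : CertK} (h : D.check = true) {s : ℕ} {t : Ex} {P : Pk} (hs : 0 < s)
    (h1 : D.tg = [(s, t)]) (h2 : D.plus = []) (h3 : D.minus = [P]) (h4 : D.blocks = [])
    (hP : SideF K Ln Ld fun x => P.re x) : SideH K Ln Ld t := by
  have hs' : (0 : ℝ) < s := by exact_mod_cast hs
  refine SideF.side (SideF.div hs' (SideF.congr (fun x => ?_) hP))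
  have := CertK.sound h x
  rw [h1, h2, h3, h4] at this
  have e : ((s : ℝ) * t.re x + 0) + 0 = (0 : ℝ) + (P.re x + 0) := this
  linarith

end Pool.Sos71
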